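import Pool.Agent.R536.CS.Inst

/-!
# From a 3-cycle stable matching to a satisfying assignment
-/

set_option autoImplicit false

namespace Pool.Agent.NPC.R536CS

variable {φ : List (Lit ℕ × Lit ℕ × Lit ℕ)} {M : ℕ → ℕ}

theorem CycleStable3.not_both {I : Inst} (h : CycleStable3 I M) {a b : ℕ} (hab : a ≠ b)
    (h1 : Wants I M a b) (h2 : Wants I M b a) : False :=
  h.2 [a, b] (by simp) (blocking2 hab h1 h2)

theorem IsMatching.eq_iff {I : Inst} (h : IsMatching I M) {a b : ℕ} : M a = b ↔ M b = a :=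
  ⟨fun e => by rw [← e, h.invol], fun e => by rw [← e, h.invol]⟩

/-- The agents of occurrences are not matched to the agents of the clauses. -/
theorem not_zP (h : CycleStable3 (inst φ) M) {r : ℕ} (hr : r < 3 * φ.length) :
    M (nm 3 (nx r) 0) ≠ zn φ r := by
  intro h0
  have hI := isInst_inst (φ := φ)
  have hM := h.1
  have hp1 : pref (inst φ) (nm 3 (nx r) 0) = [nm 4 r 0, zn φ r, nm 2 (nx r) 0] := by
    rw [pref_P (nx_lt hr), lP, pv_nx]
  have hp2 : pref (inst φ) (nm 4 r 0) = [nm 2 r 0, nm 3 (nx r) 0] := pref_Q hr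
  have hp3 : pref (inst φ) (nm 2 r 0) = [nm 3 r 0, nm 1 r 0, nm 4 r 0] := pref_X hr
  have hp4 : pref (inst φ) (nm 1 r 0) = [nm 1 (nx r) 0, nm 2 r 0, nm 1 (pv r) 0] := pref_A hr
  have hp5 : pref (inst φ) (nm 1 (nx r) 0) = [nm 1 (nx (nx r)) 0, nm 2 (nx r) 0, nm 1 r 0] := by
    rw [pref_A (nx_lt hr), lA, pv_nx]
  have hp6 : pref (inst φ) (nm 2 (nx r) 0) = [nm 3 (nx r) 0, nm 1 (nx r) 0, nm 4 (nx r) 0] :=
    pref_X (nx_lt hr)
  -- `P` wants `Q`
  have w1 : Wants (inst φ) M (nm 3 (nx r) 0) (nm 4 r 0) := by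
    rw [wants1 hI hp1, h0]
    simp [zn_eq, nm_inj]
  have w2 : ¬ Wants (inst φ) M (nm 4 r 0) (nm 3 (nx r) 0) := fun w =>
    h.not_both (by simp [nm_inj]) w1 w
  rw [wants2 hI hp2] at w2
  have h2 : M (nm 4 r 0) ≠ nm 3 (nx r) 0 := by
    intro e
    rw [hM.eq_iff, h0] at e
    simp [zn_eq, nm_inj] at e
  have h3 : M (nm 4 r 0) = nm 2 r 0 := by
    by_contra hne
    exact w2 ⟨hne, h2⟩
  have h4 : M (nm 2 r 0) = nm 4 r 0 := hM.eq_iff.1 h3
  -- `X` wants `A`
  have w3 : Wants (inst φ) M (nm 2 r 0) (nm 1 r 0) := by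
    rw [wants2 hI hp3, h4]
    simp [nm_inj]
  have w4 : ¬ Wants (inst φ) M (nm 1 r 0) (nm 2 r 0) := fun w =>
    h.not_both (by simp [nm_inj]) w3 w
  rw [wants2 hI hp4] at w4
  have h5 : M (nm 1 r 0) ≠ nm 2 r 0 := by
    intro e
    rw [hM.eq_iff, h4] at e
    simp [nm_inj] at e
  have h6 : M (nm 1 r 0) = nm 1 (nx r) 0 := by
    by_contra hne
    exact w4 ⟨hne, h5⟩
  have h7 : M (nm 1 (nx r) 0) = nm 1 r 0 := hM.eq_iff.1 h6
  -- `A` of the next slot wants `X` of the next slot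
  have w5 : Wants (inst φ) M (nm 1 (nx r) 0) (nm 2 (nx r) 0) := by
    rw [wants2 hI hp5, h7]
    refine ⟨?_, by simp [nm_inj]⟩
    rw [Ne, nm_inj, nx_nx]
    exact fun e => pv_ne r e.2.1.symm
  have w6 : ¬ Wants (inst φ) M (nm 2 (nx r) 0) (nm 1 (nx r) 0) := fun w =>
    h.not_both (by simp [nm_inj]) w5 w
  rw [wants2 hI hp6] at w6
  apply w6
  constructor
  · intro e
    rw [hM.eq_iff, h0] at e
    simp [zn_eq, nm_inj] at e
  · intro e
    rw [hM.eq_iff, h7] at e
    simp [nm_inj] at e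

/-- The agents of the cycles are matched along the cycles. -/
theorem C_matched (h : CycleStable3 (inst φ) M) {v j : ℕ} (hv : v ∈ vars φ) (hj : j < cl φ) :
    M (nm 0 v j) = nm 0 v (sc (cl φ) j) ∨ M (nm 0 v j) = nm 0 v (pd (cl φ) j) := by
  have hI := isInst_inst (φ := φ)
  have hM := h.1
  have h3 : 3 ≤ cl φ := by have := cl_ge hv; omega
  rcases hM.cases (nm 0 v j) with h1 | h1
  · -- unassigned
    exfalso
    have hmem := pd_mem_lC (φ := φ) v j
    rw [← pref_C hv hj] at hmem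
    have w1 : Wants (inst φ) M (nm 0 v j) (nm 0 v (pd (cl φ) j)) := Or.inl ⟨h1, hmem⟩
    have w2 : Wants (inst φ) M (nm 0 v (pd (cl φ) j)) (nm 0 v j) := by
      have hp := pref_C (φ := φ) hv (pd_lt hj)
      have hp' : ∃ l, pref (inst φ) (nm 0 v (pd (cl φ) j)) = nm 0 v j :: l := by
        rw [hp]
        rcases lC_cases (φ := φ) v (pd (cl φ) j) with ⟨-, h⟩ | h <;> rw [h, sc_pd hj] <;>
          exact ⟨_, rfl⟩
      obtain ⟨l, hl⟩ := hp'
      rw [wants1 hI hl]
      intro e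
      rw [hM.eq_iff, h1, nm_inj] at e
      exact pd_ne h3 e.2.2.symm
    exact h.not_both (by
      rw [Ne, nm_inj]
      exact fun e => pd_ne h3 e.2.2.symm) w1 w2
  · rw [pref_C hv hj] at h1
    rcases lC_cases (φ := φ) v j with ⟨hz, hl⟩ | hl
    · rw [hl] at h1
      simp only [List.mem_cons, List.not_mem_nil, or_false] at h1
      rcases h1 with h1 | h1 | h1
      · exact Or.inl h1
      · exfalso
        have hr : j / 2 < 3 * φ.length := by unfold cl at hj; omega
        apply not_zP h hr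
        rw [← hz]
        exact hM.eq_iff.1 h1
      · exact Or.inr h1
    · rw [hl] at h1
      simp only [List.mem_cons, List.not_mem_nil, or_false] at h1
      exact h1

/-- The states of consecutive agents of a cycle are opposite. -/
theorem state_succ (h : CycleStable3 (inst φ) M) {v j : ℕ} (hv : v ∈ vars φ)
    (hj : j + 1 < cl φ) :
    (M (nm 0 v (j + 1)) = nm 0 v (sc (cl φ) (j + 1)) ↔
      ¬ M (nm 0 v j) = nm 0 v (sc (cl φ) j)) := by
  have hM := h.1
  have h3 : 3 ≤ cl φ := by have := cl_ge hv; omega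
  have e1 : sc (cl φ) j = j + 1 := by unfold sc; rw [if_neg (by omega)]
  have e2 : pd (cl φ) (j + 1) = j := by unfold pd; rw [if_neg (by omega)]; omega
  constructor
  · intro h1 h2
    rw [e1, hM.eq_iff, h1, nm_inj] at h2
    have := sc_ne_pd h3 hj
    rw [e2] at this
    exact this h2.2.2
  · intro h1
    rcases C_matched h hv hj with h2 | h2
    · exact h2
    · exfalso
      apply h1
      rw [e1]
      rw [e2] at h2
      exact hM.eq_iff.1 h2

theorem state_all (h : CycleStable3 (inst φ) M) {v : ℕ} (hv : v ∈ vars φ) : ∀ j < cl φ,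
    (M (nm 0 v j) = nm 0 v (sc (cl φ) j) ↔
      (decide (j % 2 = 0) = decide (M (nm 0 v 0) = nm 0 v (sc (cl φ) 0)))) := by
  intro j
  induction j with
  | zero =>
    intro _
    by_cases h0 : M (nm 0 v 0) = nm 0 v (sc (cl φ) 0) <;> simp [h0]
  | succ j ih =>
    intro hj
    rw [state_succ h hv hj, ih (by omega)]
    rcases Nat.mod_two_eq_zero_or_one j with h1 | h1
    · have h2 : (j + 1) % 2 = 1 := by omega
      rw [h1, h2]
      by_cases h0 : M (nm 0 v 0) = nm 0 v (sc (cl φ) 0) <;> simp [h0]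
    · have h2 : (j + 1) % 2 = 0 := by omega
      rw [h1, h2]
      by_cases h0 : M (nm 0 v 0) = nm 0 v (sc (cl φ) 0) <;> simp [h0]

/-- In each clause some occurrence is matched to its first choice. -/
theorem exists_good (h : CycleStable3 (inst φ) M) {r : ℕ} (hr : r < 3 * φ.length) :
    ∃ s, (s = r ∨ s = nx r ∨ s = pv r) ∧
      M (zn φ s) = nm 0 (vr φ s) (sc (cl φ) (zp φ s)) := by
  by_contra hno
  push Not at hno
  have hI := isInst_inst (φ := φ)
  have hM := h.1
  have key : ∀ s, (s = r ∨ s = nx r ∨ s = pv r) → M (nm 1 s 0) = nm 2 s 0 := by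
    intro s hs
    have hs3 : s < 3 * φ.length := by
      rcases hs with rfl | rfl | rfl
      · exact hr
      · exact nx_lt hr
      · exact pv_lt hr
    have hbad := fun t ht => hno t ht
    -- the agents `P` are matched to agents `Q`
    have hP : ∀ t, (t = r ∨ t = nx r ∨ t = pv r) → M (nm 3 (nx t) 0) = nm 4 t 0 := by
      intro t ht
      have ht3 : t < 3 * φ.length := by
        rcases ht with rfl | rfl | rfl
        · exact hr
        · exact nx_lt hr
        · exact pv_lt hr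
      have w1 : Wants (inst φ) M (zn φ t) (nm 3 (nx t) 0) := by
        rw [wants2 hI (pref_zn ht3)]
        refine ⟨hbad t ht, fun e => not_zP h ht3 (hM.eq_iff.1 e)⟩
      have w2 : ¬ Wants (inst φ) M (nm 3 (nx t) 0) (zn φ t) := fun w =>
        h.not_both (by simp [zn_eq, nm_inj]) w1 w
      have hp1 : pref (inst φ) (nm 3 (nx t) 0) = [nm 4 t 0, zn φ t, nm 2 (nx t) 0] := by
        rw [pref_P (nx_lt ht3), lP, pv_nx]
      rw [wants2 hI hp1] at w2
      by_contra hne
      exact w2 ⟨hne, not_zP h ht3⟩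
    have hs' : pv s = r ∨ pv s = nx r ∨ pv s = pv r := by
      rcases hs with rfl | rfl | rfl
      · exact Or.inr (Or.inr rfl)
      · exact Or.inl (pv_nx r)
      · exact Or.inr (Or.inl (pv_pv r))
    have h1 := hP s hs
    have h2 := hP (pv s) hs'
    rw [nx_pv] at h2
    have hp3 : pref (inst φ) (nm 2 s 0) = [nm 3 s 0, nm 1 s 0, nm 4 s 0] := pref_X hs3
    have hp2 : pref (inst φ) (nm 4 s 0) = [nm 2 s 0, nm 3 (nx s) 0] := pref_Q hs3
    have hQ : M (nm 4 s 0) = nm 3 (nx s) 0 := hM.eq_iff.1 h1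
    rcases hM.cases (nm 2 s 0) with h3 | h3
    · exfalso
      have w1 : Wants (inst φ) M (nm 2 s 0) (nm 4 s 0) := Or.inl ⟨h3, by rw [hp3]; simp⟩
      have w2 : Wants (inst φ) M (nm 4 s 0) (nm 2 s 0) := by
        rw [wants1 hI hp2, hQ]
        simp [nm_inj]
      exact h.not_both (by simp [nm_inj]) w1 w2
    · rw [hp3] at h3
      simp only [List.mem_cons, List.not_mem_nil, or_false] at h3
      rcases h3 with h3 | h3 | h3
      · rw [hM.eq_iff, h2] at h3
        simp [nm_inj] at h3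
      · exact hM.eq_iff.1 h3
      · rw [hM.eq_iff, hQ] at h3
        simp [nm_inj] at h3
  have h1 := key r (Or.inl rfl)
  have h2 := key (nx r) (Or.inr (Or.inl rfl))
  have h3 := key (pv r) (Or.inr (Or.inr rfl))
  have w1 : Wants (inst φ) M (nm 1 r 0) (nm 1 (nx r) 0) := by
    rw [wants1 hI (pref_A hr), h1]
    simp [nm_inj]
  have w2 : Wants (inst φ) M (nm 1 (nx r) 0) (nm 1 (pv r) 0) := by
    have hp := pref_A (φ := φ) (nx_lt hr)
    rw [lA, nx_nx] at hp
    rw [wants1 hI hp, h2]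
    simp [nm_inj]
  have w3 : Wants (inst φ) M (nm 1 (pv r) 0) (nm 1 r 0) := by
    have hp := pref_A (φ := φ) (pv_lt hr)
    rw [lA, nx_pv] at hp
    rw [wants1 hI hp, h3]
    simp [nm_inj]
  refine h.2 [nm 1 r 0, nm 1 (nx r) 0, nm 1 (pv r) 0] (by simp) (blocking3 ?_ ?_ ?_ w1 w2 w3)
  · rw [Ne, nm_inj]; exact fun e => nx_ne r e.2.1.symm
  · rw [Ne, nm_inj]; exact fun e => pv_ne r e.2.1.symm
  · rw [Ne, nm_inj]; exact fun e => nx_ne_pv r e.2.1

/-- The literals of the clauses. -/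
theorem lits_getD (c : ℕ) (hc : c < φ.length) :
    (lits φ).getD (3 * c) (true, 0) = φ[c].1 ∧ (lits φ).getD (3 * c + 1) (true, 0) = φ[c].2.1 ∧
    (lits φ).getD (3 * c + 2) (true, 0) = φ[c].2.2 := by
  unfold lits
  induction φ generalizing c with
  | nil => simp at hc
  | cons a φ ih =>
    rw [List.flatMap_cons]
    cases c with
    | zero => simp
    | succ c =>
      have hc' : c < φ.length := by simpa using hc
      have := ih c hc'
      have e : ∀ t, 3 * (c + 1) + t = (3 * c + t) + 3 := by intro t; ring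
      have e0 : 3 * (c + 1) = (3 * c) + 3 := by ring
      rw [e 1, e 2, e0]
      simpa using this

theorem sat_of_slots (τ : ℕ → Bool)
    (h : ∀ r < 3 * φ.length, ∃ s, (s = r ∨ s = nx r ∨ s = pv r) ∧ τ (vr φ s) = sg φ s) :
    SAT3 φ := by
  refine ⟨τ, fun cl hcl => ?_⟩
  obtain ⟨c, hc, rfl⟩ := List.getElem_of_mem hcl
  obtain ⟨h0, h1, h2⟩ := lits_getD c hc
  obtain ⟨s, hs, hτ⟩ := h (3 * c) (by omega)
  have hs' : s = 3 * c ∨ s = 3 * c + 1 ∨ s = 3 * c + 2 := by
    rcases hs with rfl | rfl | rfl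
    · omega
    · unfold nx; omega
    · unfold pv; omega
  unfold vr sg at hτ
  rcases hs' with rfl | rfl | rfl
  · rw [h0] at hτ; exact Or.inl hτ
  · rw [h1] at hτ; exact Or.inr (Or.inl hτ)
  · rw [h2] at hτ; exact Or.inr (Or.inr hτ)

theorem slots_of_sat {τ : ℕ → Bool} (h : ∀ c ∈ φ, τ c.1.2 = c.1.1 ∨ τ c.2.1.2 = c.2.1.1 ∨
    τ c.2.2.2 = c.2.2.1) : ∀ c < φ.length, ∃ s, s / 3 = c ∧ τ (vr φ s) = sg φ s := by
  intro c hc
  obtain ⟨h0, h1, h2⟩ := lits_getD c hc
  rcases h _ (List.getElem_mem hc) with h3 | h3 | h3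
  · exact ⟨3 * c, by omega, by unfold vr sg; rw [h0]; exact h3⟩
  · exact ⟨3 * c + 1, by omega, by unfold vr sg; rw [h1]; exact h3⟩
  · exact ⟨3 * c + 2, by omega, by unfold vr sg; rw [h2]; exact h3⟩

/-- From a 3-cycle stable matching to a satisfying assignment. -/
theorem sat_of_stable (h : CycleStable3 (inst φ) M) : SAT3 φ := by
  refine sat_of_slots (fun v => decide (M (nm 0 v 0) = nm 0 v (sc (cl φ) 0))) fun r hr => ?_
  obtain ⟨s, hs, hgood⟩ := exists_good h hr
  refine ⟨s, hs, ?_⟩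
  have hs3 : s < 3 * φ.length := by
    rcases hs with rfl | rfl | rfl
    · exact hr
    · exact nx_lt hr
    · exact pv_lt hr
  rw [zn_eq] at hgood
  have := (state_all h (vr_mem hs3) _ (zp_lt hs3)).1 hgood
  rw [zp_mod] at this
  exact this.symm

end Pool.Agent.NPC.R536CS
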