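import Pool.Agent.R544.Util2
import Pool.Agent.NPC.Sat

/-!
# Cycle stable matchings of roommates instances
-/

set_option autoImplicit false

namespace Pool.Agent.NPC.R536CS

/-- A stable roommates instance with incomplete lists: the agents (named by natural numbers) with
their preference lists, most preferred first. -/
abbrev Inst : Type := List (ℕ × List ℕ)

/-- The preference list of an agent (empty for a number that is not an agent). -/
def pref (I : Inst) (a : ℕ) : List ℕ := (I.lookup a).getD []

/-- Correct instances: no agent is listed twice, preference lists are without repetitions, nobody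
is on their own list, and acceptability is mutual. -/
structure IsInst (I : Inst) : Prop where
  nodup : (I.map Prod.fst).Nodup
  pref_nodup : ∀ a, (pref I a).Nodup
  irrefl : ∀ a, a ∉ pref I a
  symm : ∀ a b, b ∈ pref I a → a ∈ pref I b

/-- `M` is a matching: `M a` is the partner of `a`, and `M a = a` means that `a` is unassigned. -/
structure IsMatching (I : Inst) (M : ℕ → ℕ) : Prop where
  invol : ∀ a, M (M a) = a
  acceptable : ∀ a, M a ≠ a → M a ∈ pref I a

/-- `a` finds `b` acceptable and prefers `b` to `c`. -/
def Prefers (I : Inst) (a b c : ℕ) : Prop :=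
  b ∈ pref I a ∧ (pref I a).idxOf b < (pref I a).idxOf c

/-- Either `a` is unassigned in `M` and finds `b` acceptable, or `a` prefers `b` to `M a`. -/
def Wants (I : Inst) (M : ℕ → ℕ) (a b : ℕ) : Prop :=
  (M a = a ∧ b ∈ pref I a) ∨ (M a ≠ a ∧ Prefers I a b (M a))

/-- A blocking cycle: a sequence of at least two distinct agents each of which wants the next one
(cyclically). -/
def IsBlockingCycle (I : Inst) (M : ℕ → ℕ) (c : List ℕ) : Prop :=
  2 ≤ c.length ∧ c.Nodup ∧
    ∀ i < c.length, Wants I M (c.getD i 0) (c.getD ((i + 1) % c.length) 0)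

/-- Cycle stable matchings. -/
def CycleStable (I : Inst) (M : ℕ → ℕ) : Prop :=
  IsMatching I M ∧ ∀ c, ¬ IsBlockingCycle I M c

/-- `3`-cycle stable matchings. -/
def CycleStable3 (I : Inst) (M : ℕ → ℕ) : Prop :=
  IsMatching I M ∧ ∀ c, c.length ≤ 3 → ¬ IsBlockingCycle I M c

/-- The decision problem CS(L). -/
def CS (L : ℕ) (I : Inst) : Prop :=
  IsInst I ∧ (∀ a, (pref I a).length ≤ L) ∧ ∃ M, CycleStable I M

/-- The decision problem CS₃(L). -/
def CS3 (L : ℕ) (I : Inst) : Prop :=
  IsInst I ∧ (∀ a, (pref I a).length ≤ L) ∧ ∃ M, CycleStable3 I M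

/-! ### Basic facts -/

variable {I : Inst} {M : ℕ → ℕ}

theorem pref_of_mem (h : (I.map Prod.fst).Nodup) {a : ℕ} {l : List ℕ} (hm : (a, l) ∈ I) :
    pref I a = l := by
  unfold pref
  induction I with
  | nil => simp at hm
  | cons p I ih =>
    obtain ⟨b, l'⟩ := p
    rw [List.map_cons, List.nodup_cons] at h
    rw [List.lookup_cons]
    rcases List.mem_cons.1 hm with e | hm'
    · simp only [Prod.mk.injEq] at e
      rw [e.1, e.2]
      simp
    · have hne : a ≠ b := fun e => h.1 (List.mem_map.2 ⟨(a, l), hm', e⟩)
      have : (a == b) = false := by simpa using hne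
      rw [this]
      exact ih h.2 hm'

theorem pref_of_notMem {a : ℕ} (h : a ∉ I.map Prod.fst) : pref I a = [] := by
  unfold pref
  have : I.lookup a = none := by
    rw [List.lookup_eq_none_iff]
    intro p hp
    have hne : a ≠ p.1 := fun e => h (List.mem_map.2 ⟨p, hp, e.symm⟩)
    simpa using hne
  rw [this]
  rfl

theorem IsMatching.cases (hM : IsMatching I M) (a : ℕ) : M a = a ∨ M a ∈ pref I a := by
  by_cases h : M a = a
  · exact Or.inl h
  · exact Or.inr (hM.acceptable a h)

theorem wants_iff (hI : IsInst I) {a b : ℕ} :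
    Wants I M a b ↔ Prefers I a b (M a) := by
  unfold Wants
  by_cases h : M a = a
  · have h1 : (pref I a).idxOf a = (pref I a).length := List.idxOf_eq_length_iff.2 (hI.irrefl a)
    simp only [h, ne_eq, not_true, false_and, or_false, true_and, Prefers]
    rw [h1]
    constructor
    · intro h2
      exact ⟨h2, List.idxOf_lt_length_iff.2 h2⟩
    · exact fun h2 => h2.1
  · simp [h]

/-- Wanting the first agent on the list. -/
theorem wants1 (hI : IsInst I) {a b : ℕ} {l : List ℕ} (hp : pref I a = b :: l) :
    Wants I M a b ↔ M a ≠ b := by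
  rw [wants_iff hI, Prefers, hp]
  simp only [List.mem_cons_self, true_and, List.idxOf_cons_self]
  constructor
  · rintro h e
    rw [e, List.idxOf_cons_self] at h
    exact lt_irrefl _ h
  · intro h
    rw [List.idxOf_cons_ne _ (Ne.symm h)]
    omega

/-- Wanting the second agent on the list. -/
theorem wants2 (hI : IsInst I) {a b c : ℕ} {l : List ℕ} (hp : pref I a = b :: c :: l) :
    Wants I M a c ↔ M a ≠ b ∧ M a ≠ c := by
  have hnd := hI.pref_nodup a
  rw [wants_iff hI, Prefers, hp]
  rw [hp, List.nodup_cons] at hnd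
  have hbc : b ≠ c := fun e => hnd.1 (e ▸ List.mem_cons_self)
  simp only [List.mem_cons, true_or, or_true, true_and]
  rw [List.idxOf_cons_ne _ hbc, List.idxOf_cons_self]
  constructor
  · intro h
    refine ⟨?_, ?_⟩
    · intro e
      rw [e, List.idxOf_cons_self] at h
      omega
    · intro e
      rw [e, List.idxOf_cons_ne _ hbc, List.idxOf_cons_self] at h
      omega
  · rintro ⟨h1, h2⟩
    rw [List.idxOf_cons_ne _ (Ne.symm h1), List.idxOf_cons_ne _ (Ne.symm h2)]
    omega

/-- An agent assigned to the `i`-th agent on the list wants only the agents before. -/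
theorem wants_take {a b : ℕ} {l : List ℕ} (hI : IsInst I) (hp : pref I a = l) (i : ℕ)
    (hi : i < l.length) (hM : M a = l[i]) (h : Wants I M a b) : b ∈ l.take i := by
  rw [wants_iff hI, Prefers, hp, hM] at h
  obtain ⟨h1, h2⟩ := h
  have h3 : l.idxOf l[i] ≤ i := by
    have hnd : l.Nodup := hp ▸ hI.pref_nodup a
    rw [hnd.idxOf_getElem]
  have h4 : l[l.idxOf b]'(List.idxOf_lt_length_iff.2 h1) = b := List.getElem_idxOf _
  rw [List.mem_take_iff_getElem]
  refine ⟨l.idxOf b, ?_, h4⟩
  have := List.idxOf_lt_length_iff.2 h1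
  omega

/-- Blocking pairs. -/
theorem blocking2 {a b : ℕ} (hab : a ≠ b) (h1 : Wants I M a b) (h2 : Wants I M b a) :
    IsBlockingCycle I M [a, b] := by
  refine ⟨by simp, by simpa using hab, ?_⟩
  intro i hi
  simp only [List.length_cons, List.length_nil] at hi
  match i, hi with
  | 0, _ => simpa using h1
  | 1, _ => simpa using h2

theorem blocking3 {a b c : ℕ} (hab : a ≠ b) (hac : a ≠ c) (hbc : b ≠ c) (h1 : Wants I M a b)
    (h2 : Wants I M b c) (h3 : Wants I M c a) :
    IsBlockingCycle I M [a, b, c] := by
  refine ⟨by simp, by simp [hab, hac, hbc], ?_⟩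
  intro i hi
  simp only [List.length_cons, List.length_nil] at hi
  match i, hi with
  | 0, _ => simpa using h1
  | 1, _ => simpa using h2
  | 2, _ => simpa using h3

theorem CycleStable.three (h : CycleStable I M) : CycleStable3 I M := ⟨h.1, fun c _ => h.2 c⟩

/-- A matching with a rank function decreasing along the arcs is cycle stable. -/
theorem cycleStable_of_rank (hM : IsMatching I M) (rk : ℕ → ℕ)
    (h : ∀ a b, Wants I M a b → rk b < rk a) : CycleStable I M := by
  refine ⟨hM, fun c hc => ?_⟩
  obtain ⟨h1, -, h3⟩ := hc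
  -- the agent of the cycle with minimal rank
  have hne : (Finset.range c.length).Nonempty := ⟨0, Finset.mem_range.2 (by omega)⟩
  obtain ⟨i, hi, hmin⟩ := Finset.exists_min_image (Finset.range c.length)
    (fun i => rk (c.getD i 0)) hne
  rw [Finset.mem_range] at hi
  have h4 := h _ _ (h3 i hi)
  have h5 : (i + 1) % c.length < c.length := Nat.mod_lt _ (by omega)
  have h6 := hmin ((i + 1) % c.length) (Finset.mem_range.2 h5)
  omega

end Pool.Agent.NPC.R536CS
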