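import Pool.Agent.R536.CS.Two

/-!
# Existence of stable matchings for lists of length at most two
-/

set_option autoImplicit false

namespace Pool.Agent.NPC.R536CS

variable {I : Inst} {M : ℕ → ℕ}

/-- A stable matching of the agents in `U`. -/
structure StU (I : Inst) (U : Finset ℕ) (M : ℕ → ℕ) : Prop where
  matching : IsMatching I M
  out : ∀ a, a ∉ U → M a = a
  stable : ∀ a ∈ U, ∀ b ∈ U, Wants I M a b → ¬ Wants I M b a

theorem wants_congr {M' : ℕ → ℕ} {a b : ℕ} (h : M a = M' a) : Wants I M a b ↔ Wants I M' a b := by
  unfold Wants
  rw [h]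

theorem pref_pair (hI : IsInst I) (hL : ∀ a, (pref I a).length ≤ 2) {x a b : ℕ} (hab : a ≠ b)
    (ha : a ∈ pref I x) (hb : b ∈ pref I x) (hle : (pref I x).idxOf a ≤ (pref I x).idxOf b) :
    pref I x = [a, b] := by
  have hlen := hL x
  have hnd := hI.pref_nodup x
  generalize pref I x = l at *
  match l, hlen with
  | [], _ => simp at ha
  | [y], _ =>
    simp only [List.mem_singleton] at ha hb
    exact absurd (ha.trans hb.symm) hab
  | [y, z], _ =>
    simp only [List.mem_cons, List.not_mem_nil, or_false] at ha hb
    rcases ha with rfl | rfl <;> rcases hb with rfl | rfl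
    · exact absurd rfl hab
    · rfl
    · exfalso
      rw [List.idxOf_cons_ne _ (Ne.symm hab), List.idxOf_cons_self, List.idxOf_cons_self] at hle
      omega
    · exact absurd rfl hab
  | _ :: _ :: _ :: _, h => simp at h

theorem exists_stU (hI : IsInst I) (hL : ∀ a, (pref I a).length ≤ 2) (hc : ¬ Crit I) :
    ∀ (n : ℕ) (U : Finset ℕ), U.card = n → U ⊆ (I.map Prod.fst).toFinset → ∃ M, StU I U M := by
  classical
  intro n
  induction n using Nat.strong_induction_on with
  | _ n ih =>
  intro U hUn hU
  by_cases h1 : ∃ a ∈ U, ∀ b ∈ pref I a, b ∉ U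
  · -- an agent without acceptable agents in `U`
    obtain ⟨a, haU, ha⟩ := h1
    have hcard := Finset.card_erase_lt_of_mem haU
    obtain ⟨M, hM⟩ := ih _ (by omega) (U.erase a) rfl ((Finset.erase_subset _ _).trans hU)
    refine ⟨M, hM.matching, fun x hx => hM.out x (fun h => hx (Finset.mem_of_mem_erase h)),
      fun x hx y hy w w' => ?_⟩
    by_cases hxa : x = a
    · subst hxa
      exact ha y (wants_pref w) hy
    · by_cases hya : y = a
      · subst hya
        exact ha x (wants_pref w') hx
      · exact hM.stable x (Finset.mem_erase.2 ⟨hxa, hx⟩) y (Finset.mem_erase.2 ⟨hya, hy⟩) w w'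
  · push Not at h1
    have hf : ∀ a ∈ U, ∃ b, b ∈ U ∧ b ∈ pref I a ∧ ∀ c ∈ U, c ∈ pref I a →
        (pref I a).idxOf b ≤ (pref I a).idxOf c := by
      intro a ha
      obtain ⟨b, hb, hbU⟩ := h1 a ha
      obtain ⟨c, hc, hmin⟩ := Finset.exists_min_image ((pref I a).toFinset.filter (· ∈ U))
        (fun c => (pref I a).idxOf c) ⟨b, by simp [hb, hbU]⟩
      simp only [Finset.mem_filter, List.mem_toFinset] at hc hmin
      exact ⟨c, hc.2, hc.1, fun d hd hd' => hmin d ⟨hd', hd⟩⟩
    choose! f hfU hfp hfmin using hf
    by_cases h2 : ∃ a ∈ U, f (f a) = a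
    · -- a pair of agents which are first choices of each other
      obtain ⟨a, haU, hffa⟩ := h2
      set b := f a with hb
      have hbU : b ∈ U := hfU a haU
      have hab : a ≠ b := fun e => hI.irrefl a (by have := hfp a haU; rwa [← hb, ← e] at this)
      have hcard1 := Finset.card_erase_lt_of_mem haU
      have hcard2 := Finset.card_erase_le (s := U.erase a) (a := b)
      obtain ⟨M', hM'⟩ := ih _ (by omega) ((U.erase a).erase b) rfl
        ((Finset.erase_subset _ _).trans ((Finset.erase_subset _ _).trans hU))
      have hMa : M' a = a := hM'.out a (by simp)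
      have hMb : M' b = b := hM'.out b (by simp)
      have hne : ∀ x, x ≠ a → x ≠ b → M' x ≠ a ∧ M' x ≠ b := by
        intro x hxa hxb
        constructor
        · intro e
          have := hM'.matching.invol x
          rw [e, hMa] at this
          exact hxa this.symm
        · intro e
          have := hM'.matching.invol x
          rw [e, hMb] at this
          exact hxb this.symm
      set M : ℕ → ℕ := fun x => if x = a then b else if x = b then a else M' x with hMdef
      have hMa' : M a = b := by simp [hMdef]
      have hMb' : M b = a := by simp [hMdef, hab.symm]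
      have hMx : ∀ x, x ≠ a → x ≠ b → M x = M' x := by
        intro x hxa hxb
        simp [hMdef, hxa, hxb]
      refine ⟨M, ⟨?_, ?_⟩, ?_, ?_⟩
      · intro x
        by_cases hxa : x = a
        · rw [hxa, hMa', hMb']
        · by_cases hxb : x = b
          · rw [hxb, hMb', hMa']
          · rw [hMx x hxa hxb, hMx _ (hne x hxa hxb).1 (hne x hxa hxb).2]
            exact hM'.matching.invol x
      · intro x hx
        by_cases hxa : x = a
        · rw [hxa, hMa']; exact hfp a haU
        · by_cases hxb : x = b
          · rw [hxb, hMb']
            have := hfp b hbU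
            rwa [hffa] at this
          · rw [hMx x hxa hxb] at hx ⊢
            exact hM'.matching.acceptable x hx
      · intro x hx
        have hxa : x ≠ a := fun e => hx (e ▸ haU)
        have hxb : x ≠ b := fun e => hx (e ▸ hbU)
        rw [hMx x hxa hxb]
        exact hM'.out x (fun h => hx (Finset.mem_of_mem_erase (Finset.mem_of_mem_erase h)))
      · have ha0 : ∀ y ∈ U, ¬ Wants I M a y := by
          intro y hy w
          rw [wants_iff hI, Prefers, hMa'] at w
          have := hfmin a haU y hy w.1
          rw [← hb] at this
          omega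
        have hb0 : ∀ y ∈ U, ¬ Wants I M b y := by
          intro y hy w
          rw [wants_iff hI, Prefers, hMb'] at w
          have := hfmin b hbU y hy w.1
          rw [hffa] at this
          omega
        intro x hx y hy w w'
        by_cases hxa : x = a
        · exact ha0 y hy (hxa ▸ w)
        by_cases hxb : x = b
        · exact hb0 y hy (hxb ▸ w)
        by_cases hya : y = a
        · exact ha0 x hx (hya ▸ w')
        by_cases hyb : y = b
        · exact hb0 x hx (hyb ▸ w')
        refine hM'.stable x ?_ y ?_ ((wants_congr (hMx x hxa hxb)).1 w)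
          ((wants_congr (hMx y hya hyb)).1 w')
        · simp [hxa, hxb, hx]
        · simp [hya, hyb, hy]
    · -- all agents form cycles
      push Not at h2
      have hpf : ∀ a ∈ U, pref I (f a) = [f (f a), a] := by
        intro a ha
        have h3 : a ∈ pref I (f a) := hI.symm _ _ (hfp a ha)
        exact pref_pair hI hL (h2 a ha) (hfp _ (hfU a ha)) h3 (hfmin _ (hfU a ha) a ha h3)
      have hinj : ∀ a ∈ U, ∀ a' ∈ U, f a = f a' → a = a' := by
        intro a ha a' ha' he
        have h3 := hpf a ha
        rw [he, hpf a' ha'] at h3
        simp only [List.cons.injEq, and_true] at h3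
        exact h3.2.symm
      let g : U → U := fun a => ⟨f a.1, hfU a.1 a.2⟩
      have hg : Function.Injective g := by
        intro a a' h
        exact Subtype.ext (hinj a.1 a.2 a'.1 a'.2 (congrArg Subtype.val h))
      let e : Equiv.Perm U := Equiv.ofBijective g (Finite.injective_iff_bijective.1 hg)
      have he : ∀ a : U, (e a : ℕ) = f a := fun a => rfl
      have hsurj : ∀ a ∈ U, ∃ a' ∈ U, f a' = a := by
        intro a ha
        refine ⟨(e.symm ⟨a, ha⟩ : ℕ), (e.symm ⟨a, ha⟩).2, ?_⟩
        rw [← he, Equiv.apply_symm_apply]
      have hfc : ∀ a ∈ U, fc I a = f a := by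
        intro a ha
        obtain ⟨a', ha', h3⟩ := hsurj a ha
        have h4 := hpf a' ha'
        rw [h3] at h4
        unfold fc
        rw [h4]
        rfl
      have hit : ∀ (i : ℕ) (a : U), ((e ^ i) a : ℕ) = (fc I)^[i] a := by
        intro i
        induction i with
        | zero => intro a; rfl
        | succ i ihi =>
          intro a
          rw [pow_succ', Equiv.Perm.mul_apply, he, Function.iterate_succ_apply', ← ihi a,
            hfc _ ((e ^ i) a).2]
      have hodd : ∀ (a : U) (k : ℕ), k % 2 = 1 → (e ^ k) a ≠ a := by
        intro a k hk hek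
        have hper : Function.IsPeriodicPt (fc I) k (a : ℕ) := by
          change (fc I)^[k] a = a
          rw [← hit k a, hek]
        have hdvd := hper.minimalPeriod_dvd
        have hpos := hper.minimalPeriod_pos (by omega)
        set p := Function.minimalPeriod (fc I) (a : ℕ) with hp
        have hpodd : p % 2 = 1 := by
          obtain ⟨q, hq⟩ := hdvd
          rcases Nat.mod_two_eq_zero_or_one p with h3 | h3
          · rw [hq, Nat.mul_mod, h3] at hk
            simp at hk
          · exact h3
        have hmem : ∀ i, (fc I)^[i] (a : ℕ) ∈ U := by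
          intro i
          rw [← hit i a]
          exact ((e ^ i) a).2
        have hple : p ≤ I.length := by
          have h3 : (Finset.range p).card ≤ (I.map Prod.fst).toFinset.card := by
            refine Finset.card_le_card_of_injOn (fun i => (fc I)^[i] (a : ℕ))
              (fun i _ => hU (hmem i)) ?_
            intro i hi j hj hij
            rw [Finset.coe_range] at hi hj
            exact Function.iterate_injOn_Iio_minimalPeriod hi hj hij
          rw [Finset.card_range] at h3
          refine h3.trans ((List.toFinset_card_le _).trans ?_)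
          simp
        apply hc
        refine ⟨a, List.mem_toFinset.1 (hU a.2), p, List.mem_range.2 (by omega), hpodd,
          Function.isPeriodicPt_minimalPeriod _ _, fun i _ => Or.inr ?_⟩
        have e1 : (fc I)^[i + 1] (a : ℕ) = f ((fc I)^[i] (a : ℕ)) := by
          rw [Function.iterate_succ_apply', hfc _ (hmem i)]
        have e2 : (fc I)^[i + 2] (a : ℕ) = f (f ((fc I)^[i] (a : ℕ))) := by
          rw [Function.iterate_succ_apply', hfc _ (hmem (i + 1)), e1]
        rw [e1, e2]
        exact hpf _ (hmem i)
      obtain ⟨c, hcol⟩ := exists_color e hodd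
      set M : ℕ → ℕ := fun x => if h : x ∈ U then
        (if c ⟨x, h⟩ = true then f x else (e.symm ⟨x, h⟩ : ℕ)) else x with hMdef
      have hM1 : ∀ (x : ℕ) (h : x ∈ U), c ⟨x, h⟩ = true → M x = f x := by
        intro x h h3
        simp only [hMdef]
        rw [dif_pos h, if_pos h3]
      have hM2 : ∀ (x : ℕ) (h : x ∈ U), c ⟨x, h⟩ = false → M x = (e.symm ⟨x, h⟩ : ℕ) := by
        intro x h h3
        simp only [hMdef]
        rw [dif_pos h, if_neg (by rw [h3]; simp)]
      have hM3 : ∀ x, x ∉ U → M x = x := by
        intro x h
        simp only [hMdef]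
        rw [dif_neg h]
      have hpx : ∀ (x : ℕ) (h : x ∈ U), pref I x = [f x, (e.symm ⟨x, h⟩ : ℕ)] := by
        intro x h
        have h3 := hpf (e.symm ⟨x, h⟩ : ℕ) (e.symm ⟨x, h⟩).2
        have h4 : f (e.symm ⟨x, h⟩ : ℕ) = x := by
          rw [← he, Equiv.apply_symm_apply]
        rw [h4] at h3
        exact h3
      refine ⟨M, ⟨?_, ?_⟩, hM3, ?_⟩
      · intro x
        by_cases hx : x ∈ U
        · cases hcx : c ⟨x, hx⟩ with
          | true =>
            rw [hM1 x hx hcx]
            have h3 : c ⟨f x, hfU x hx⟩ = false := by
              have := hcol ⟨x, hx⟩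
              rw [hcx] at this
              exact this
            rw [hM2 _ (hfU x hx) h3]
            have h4 : (⟨f x, hfU x hx⟩ : U) = e ⟨x, hx⟩ := rfl
            rw [h4, Equiv.symm_apply_apply]
          | false =>
            rw [hM2 x hx hcx]
            have h3 : c (e.symm ⟨x, hx⟩) = true := by
              have := hcol (e.symm ⟨x, hx⟩)
              rw [Equiv.apply_symm_apply, hcx] at this
              simpa using this.symm
            rw [hM1 _ (e.symm ⟨x, hx⟩).2 h3, ← he, Equiv.apply_symm_apply]
        · rw [hM3 x hx, hM3 x hx]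
      · intro x hx
        by_cases hxU : x ∈ U
        · rw [hpx x hxU]
          cases hcx : c ⟨x, hxU⟩ with
          | true => rw [hM1 x hxU hcx]; simp
          | false => rw [hM2 x hxU hcx]; simp
        · exact absurd (hM3 x hxU) hx
      · have key : ∀ (x : ℕ) (h : x ∈ U) (y : ℕ), Wants I M x y → y = f x := by
          intro x h y w
          have hy := wants_pref w
          rw [hpx x h] at hy
          simp only [List.mem_cons, List.not_mem_nil, or_false] at hy
          rcases hy with hy | hy
          · exact hy
          · exfalso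
            rw [hy] at w
            have := (wants2 hI (hpx x h)).1 w
            cases hcx : c ⟨x, h⟩ with
            | true => exact this.1 (hM1 x h hcx)
            | false => exact this.2 (hM2 x h hcx)
        intro x hx y hy w w'
        have h3 := key x hx y w
        have h4 := key y hy x w'
        rw [h3] at h4
        exact h2 x hx h4.symm

/-- The characterization for lists of length at most two. -/
theorem exists_iff_not_crit (hI : IsInst I) (hL : ∀ a, (pref I a).length ≤ 2) :
    (∃ M, CycleStable I M) ↔ ¬ Crit I := by
  constructor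
  · rintro ⟨M, hM⟩ hc
    exact not_stable_of_crit hI hc hM.three
  · intro hc
    obtain ⟨M, hM⟩ := exists_stU hI hL hc _ _ rfl (Finset.Subset.refl _)
    refine ⟨M, cycleStable_of_stable hI hL hM.matching fun a b w w' => ?_⟩
    exact hM.stable a (List.mem_toFinset.2 (mem_names_of_pref (wants_pref w))) b
      (List.mem_toFinset.2 (mem_names_of_pref (wants_pref w'))) w w'

theorem exists3_iff_not_crit (hI : IsInst I) (hL : ∀ a, (pref I a).length ≤ 2) :
    (∃ M, CycleStable3 I M) ↔ ¬ Crit I := by
  constructor
  · rintro ⟨M, hM⟩ hc
    exact not_stable_of_crit hI hc hM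
  · intro hc
    obtain ⟨M, hM⟩ := (exists_iff_not_crit hI hL).2 hc
    exact ⟨M, hM.three⟩

end Pool.Agent.NPC.R536CS
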