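import Pool.Agent.R536.CS.Back

/-!
# From a satisfying assignment to a cycle stable matching
-/

set_option autoImplicit false

namespace Pool.Agent.NPC.R536CS

section Forth

variable (φ : List (Lit ℕ × Lit ℕ × Lit ℕ)) (τ : ℕ → Bool) (S : ℕ → ℕ)

/-- The matching by the kind of the agent: `S c` is the slot of a true literal of the clause
`c`. -/
def Mr (k i j : ℕ) : ℕ :=
  if k = 0 then
    (if decide (j % 2 = 0) = τ i then nm 0 i (sc (cl φ) j) else nm 0 i (pd (cl φ) j))
  else if k = 1 then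
    (if i = S (i / 3) then nm 1 (nx i) 0 else if i = nx (S (i / 3)) then nm 1 (pv i) 0
      else nm 2 i 0)
  else if k = 2 then
    (if i = S (i / 3) then nm 4 i 0 else if i = nx (S (i / 3)) then nm 3 i 0 else nm 1 i 0)
  else if k = 3 then
    (if i = nx (S (i / 3)) then nm 2 i 0 else nm 4 (pv i) 0)
  else (if i = S (i / 3) then nm 2 i 0 else nm 3 (nx i) 0)

/-- The rank by the kind of the agent. -/
def Rr (k i j : ℕ) : ℕ :=
  if k = 0 then (if decide (j % 2 = 0) = τ i then 0 else 2)
  else if k = 1 then (if i = S (i / 3) then 0 else if i = nx (S (i / 3)) then 2 else 1)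
  else if k = 2 then (if i = nx (S (i / 3)) then 0 else 1)
  else if k = 3 then (if i = nx (S (i / 3)) then 1 else 0)
  else (if i = S (i / 3) then 0 else if i = nx (S (i / 3)) then 1 else 2)

open Classical in
/-- The matching. -/
noncomputable def Mx (x : ℕ) : ℕ :=
  if x ∈ (inst φ).map Prod.fst then Mr φ τ S x.unpair.1 x.unpair.2.unpair.1 x.unpair.2.unpair.2
  else x

/-- The rank. -/
def Rx (x : ℕ) : ℕ := Rr τ S x.unpair.1 x.unpair.2.unpair.1 x.unpair.2.unpair.2

variable {φ τ S}

theorem Mx_nm {k i j : ℕ} (h : nm k i j ∈ (inst φ).map Prod.fst) :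
    Mx φ τ S (nm k i j) = Mr φ τ S k i j := by
  unfold Mx
  rw [if_pos h]
  simp [nm]

theorem Rx_nm (k i j : ℕ) : Rx τ S (nm k i j) = Rr τ S k i j := by
  simp [Rx, nm]

theorem Mx_C {v j : ℕ} (hv : v ∈ vars φ) (hj : j < cl φ) : Mx φ τ S (nm 0 v j) =
    if decide (j % 2 = 0) = τ v then nm 0 v (sc (cl φ) j) else nm 0 v (pd (cl φ) j) := by
  rw [Mx_nm (mem_names.2 (Or.inl ⟨v, hv, j, hj, rfl⟩))]
  simp [Mr]

theorem Mx_A {r : ℕ} (hr : r < 3 * φ.length) : Mx φ τ S (nm 1 r 0) =
    if r = S (r / 3) then nm 1 (nx r) 0 else if r = nx (S (r / 3)) then nm 1 (pv r) 0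
      else nm 2 r 0 := by
  rw [Mx_nm (mem_names.2 (Or.inr ⟨r, hr, Or.inl rfl⟩))]
  simp [Mr]

theorem Mx_X {r : ℕ} (hr : r < 3 * φ.length) : Mx φ τ S (nm 2 r 0) =
    if r = S (r / 3) then nm 4 r 0 else if r = nx (S (r / 3)) then nm 3 r 0 else nm 1 r 0 := by
  rw [Mx_nm (mem_names.2 (Or.inr ⟨r, hr, Or.inr (Or.inl rfl)⟩))]
  simp [Mr]

theorem Mx_P {r : ℕ} (hr : r < 3 * φ.length) : Mx φ τ S (nm 3 r 0) =
    if r = nx (S (r / 3)) then nm 2 r 0 else nm 4 (pv r) 0 := by
  rw [Mx_nm (mem_names.2 (Or.inr ⟨r, hr, Or.inr (Or.inr (Or.inl rfl))⟩))]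
  simp [Mr]

theorem Mx_Q {r : ℕ} (hr : r < 3 * φ.length) : Mx φ τ S (nm 4 r 0) =
    if r = S (r / 3) then nm 2 r 0 else nm 3 (nx r) 0 := by
  rw [Mx_nm (mem_names.2 (Or.inr ⟨r, hr, Or.inr (Or.inr (Or.inr rfl))⟩))]
  simp [Mr]

theorem Rx_C (v j : ℕ) : Rx τ S (nm 0 v j) = if decide (j % 2 = 0) = τ v then 0 else 2 := by
  rw [Rx_nm]; simp [Rr]

theorem Rx_A (r : ℕ) : Rx τ S (nm 1 r 0) =
    if r = S (r / 3) then 0 else if r = nx (S (r / 3)) then 2 else 1 := by
  rw [Rx_nm]; simp [Rr]

theorem Rx_X (r : ℕ) : Rx τ S (nm 2 r 0) = if r = nx (S (r / 3)) then 0 else 1 := by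
  rw [Rx_nm]; simp [Rr]

theorem Rx_P (r : ℕ) : Rx τ S (nm 3 r 0) = if r = nx (S (r / 3)) then 1 else 0 := by
  rw [Rx_nm]; simp [Rr]

theorem Rx_Q (r : ℕ) : Rx τ S (nm 4 r 0) =
    if r = S (r / 3) then 0 else if r = nx (S (r / 3)) then 1 else 2 := by
  rw [Rx_nm]; simp [Rr]

theorem cl_even (φ : List (Lit ℕ × Lit ℕ × Lit ℕ)) : cl φ % 2 = 0 := by unfold cl; omega

theorem sc_par {j : ℕ} (hj : j < cl φ) :
    decide (sc (cl φ) j % 2 = 0) = !decide (j % 2 = 0) := by
  have := cl_even φ
  unfold sc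
  by_cases h : j + 1 = cl φ
  · rw [if_pos h]
    have h1 : j % 2 = 1 := by omega
    simp [h1]
  · rw [if_neg h]
    rcases Nat.mod_two_eq_zero_or_one j with h1 | h1
    · have h2 : (j + 1) % 2 = 1 := by omega
      simp [h1, h2]
    · have h2 : (j + 1) % 2 = 0 := by omega
      simp [h1, h2]

theorem pd_par {j : ℕ} (hj : j < cl φ) :
    decide (pd (cl φ) j % 2 = 0) = !decide (j % 2 = 0) := by
  have h1 := sc_par (pd_lt hj)
  rw [sc_pd hj] at h1
  rw [h1, Bool.not_not]

/-- Slots of the clause. -/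
theorem S_slot (hS : ∀ c < φ.length, S c / 3 = c) {r : ℕ} (hr : r < 3 * φ.length) :
    r = S (r / 3) ∨ r = nx (S (r / 3)) ∨ r = pv (S (r / 3)) :=
  slot_cases (hS _ (by omega)).symm

theorem isMatching_Mx (hS : ∀ c < φ.length, S c / 3 = c) : IsMatching (inst φ) (Mx φ τ S) := by
  have key : ∀ x, Mx φ τ S (Mx φ τ S x) = x ∧ (Mx φ τ S x ≠ x → Mx φ τ S x ∈ pref (inst φ) x) := by
    intro x
    rcases agent_cases φ x with ⟨hx, -⟩ | ⟨v, hv, j, hj, rfl⟩ | ⟨r, hr, rfl⟩ | ⟨r, hr, rfl⟩ |
      ⟨r, hr, rfl⟩ | ⟨r, hr, rfl⟩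
    · have : Mx φ τ S x = x := by unfold Mx; rw [if_neg hx]
      rw [this]
      exact ⟨this, fun h => absurd rfl h⟩
    · rw [Mx_C hv hj, pref_C hv hj]
      by_cases h : decide (j % 2 = 0) = τ v
      · rw [if_pos h]
        refine ⟨?_, fun _ => sc_mem_lC v j⟩
        rw [Mx_C hv (sc_lt hj), sc_par hj, h, if_neg (by simp), pd_sc hj]
      · rw [if_neg h]
        refine ⟨?_, fun _ => pd_mem_lC v j⟩
        rw [Mx_C hv (pd_lt hj), pd_par hj, if_pos ?_, sc_pd hj]
        cases hb : decide (j % 2 = 0) <;> cases hτ : τ v <;> simp_all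
    · have hd : nx r / 3 = r / 3 := nx_div r
      have hd' : pv r / 3 = r / 3 := pv_div r
      rw [Mx_A hr, pref_A hr, lA]
      by_cases h1 : r = S (r / 3)
      · rw [if_pos h1]
        refine ⟨?_, fun _ => by simp⟩
        rw [Mx_A (nx_lt hr), hd, ← h1, if_neg (nx_ne r), if_pos rfl, pv_nx]
      · rw [if_neg h1]
        by_cases h2 : r = nx (S (r / 3))
        · rw [if_pos h2]
          refine ⟨?_, fun _ => by simp⟩
          have h3 : pv r = S (r / 3) := by rw [h2, pv_nx, ← h2]
          rw [Mx_A (pv_lt hr), hd', ← h3, if_pos rfl, nx_pv]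
        · rw [if_neg h2]
          refine ⟨?_, fun _ => by simp⟩
          rw [Mx_X hr, if_neg h1, if_neg h2]
    · rw [Mx_X hr, pref_X hr, lX]
      by_cases h1 : r = S (r / 3)
      · rw [if_pos h1]
        refine ⟨?_, fun _ => by simp⟩
        rw [Mx_Q hr, if_pos h1]
      · rw [if_neg h1]
        by_cases h2 : r = nx (S (r / 3))
        · rw [if_pos h2]
          refine ⟨?_, fun _ => by simp⟩
          rw [Mx_P hr, if_pos h2]
        · rw [if_neg h2]
          refine ⟨?_, fun _ => by simp⟩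
          rw [Mx_A hr, if_neg h1, if_neg h2]
    · have hd' : pv r / 3 = r / 3 := pv_div r
      rw [Mx_P hr, pref_P hr, lP]
      by_cases h2 : r = nx (S (r / 3))
      · rw [if_pos h2]
        refine ⟨?_, fun _ => by simp⟩
        have h1 : r ≠ S (r / 3) := by
          intro e
          rw [← e] at h2
          exact nx_ne r h2.symm
        rw [Mx_X hr, if_neg h1, if_pos h2]
      · rw [if_neg h2]
        refine ⟨?_, fun _ => by simp⟩
        have h3 : pv r ≠ S (r / 3) := by
          intro e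
          apply h2
          rw [← e, nx_pv]
        rw [Mx_Q (pv_lt hr), hd', if_neg h3, nx_pv]
    · have hd : nx r / 3 = r / 3 := nx_div r
      rw [Mx_Q hr, pref_Q hr, lQ]
      by_cases h1 : r = S (r / 3)
      · rw [if_pos h1]
        refine ⟨?_, fun _ => by simp⟩
        rw [Mx_X hr, if_pos h1]
      · rw [if_neg h1]
        refine ⟨?_, fun _ => by simp⟩
        have h3 : nx r ≠ nx (S (r / 3)) := by
          intro e
          apply h1
          have := congrArg pv e
          rwa [pv_nx, pv_nx] at this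
        rw [Mx_P (nx_lt hr), hd, if_neg h3, pv_nx]
  exact ⟨fun x => (key x).1, fun x => (key x).2⟩

theorem mem1 {y a : ℕ} (h : y ∈ [a]) : y = a := by simpa using h
theorem mem2 {y a b : ℕ} (h : y ∈ [a, b]) : y = a ∨ y = b := by simpa using h

theorem rank_decr (hS : ∀ c < φ.length, S c / 3 = c)
    (hτ : ∀ c < φ.length, τ (vr φ (S c)) = sg φ (S c)) (x y : ℕ)
    (h : Wants (inst φ) (Mx φ τ S) x y) : Rx τ S y < Rx τ S x := by
  have hI := isInst_inst (φ := φ)
  rcases agent_cases φ x with ⟨hx, hp⟩ | ⟨v, hv, j, hj, rfl⟩ | ⟨r, hr, rfl⟩ | ⟨r, hr, rfl⟩ |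
    ⟨r, hr, rfl⟩ | ⟨r, hr, rfl⟩
  · rw [wants_iff hI, Prefers, hp] at h
    simp at h
  · have hM := Mx_C (φ := φ) (τ := τ) (S := S) hv hj
    by_cases h1 : decide (j % 2 = 0) = τ v
    · rw [if_pos h1] at hM
      exfalso
      rcases lC_cases (φ := φ) v j with ⟨-, hl⟩ | hl <;>
        · rw [← pref_C hv hj] at hl
          have := wants_take hI hl 0 (by simp) hM h
          simp at this
    · rw [if_neg h1] at hM
      rw [Rx_C, if_neg h1]
      have hR : Rx τ S (nm 0 v (sc (cl φ) j)) = 0 := by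
        rw [Rx_C, sc_par hj, if_pos]
        cases hb : decide (j % 2 = 0) <;> cases hτ : τ v <;> simp_all
      rcases lC_cases (φ := φ) v j with ⟨-, hl⟩ | hl
      · rw [← pref_C hv hj] at hl
        have := mem2 (wants_take hI hl 2 (by simp) hM h)
        rcases this with rfl | rfl
        · rw [hR]; omega
        · rw [Rx_P]; split_ifs <;> omega
      · rw [← pref_C hv hj] at hl
        have := mem1 (wants_take hI hl 1 (by simp) hM h)
        rw [this, hR]; omega
  · -- A
    have hM := Mx_A (φ := φ) (τ := τ) (S := S) hr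
    have hl := pref_A (φ := φ) hr
    by_cases h1 : r = S (r / 3)
    · rw [if_pos h1] at hM
      have := wants_take hI hl 0 (by simp [lA]) hM h
      simp at this
    · rw [if_neg h1] at hM
      by_cases h2 : r = nx (S (r / 3))
      · rw [if_pos h2] at hM
        rw [Rx_A, if_neg h1, if_pos h2]
        rcases mem2 (wants_take hI hl 2 (by simp [lA]) hM h) with rfl | rfl
        · rw [Rx_A, nx_div, if_neg, if_neg]
          · omega
          · intro e
            have := congrArg pv e
            rw [pv_nx, pv_nx] at this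
            exact h1 this
          · intro e
            rw [← e, nx_nx] at h2
            exact pv_ne r h2.symm
        · rw [Rx_X, if_pos h2]; omega
      · rw [if_neg h2] at hM
        rw [Rx_A, if_neg h1, if_neg h2]
        have h3 : r = pv (S (r / 3)) := by
          rcases S_slot hS hr with h | h | h
          · exact absurd h h1
          · exact absurd h h2
          · exact h
        have h4 : nx r = S (r / 3) := by rw [h3, nx_pv, ← h3]
        have := mem1 (wants_take hI hl 1 (by simp [lA]) hM h)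
        rw [this, Rx_A, nx_div, if_pos h4]
        omega
  · -- X
    have hM := Mx_X (φ := φ) (τ := τ) (S := S) hr
    have hl := pref_X (φ := φ) hr
    by_cases h1 : r = S (r / 3)
    · rw [if_pos h1] at hM
      have h2 : r ≠ nx (S (r / 3)) := by
        intro e
        rw [← h1] at e
        exact nx_ne r e.symm
      rw [Rx_X, if_neg h2]
      rcases mem2 (wants_take hI hl 2 (by simp [lX]) hM h) with rfl | rfl
      · rw [Rx_P, if_neg h2]; omega
      · rw [Rx_A, if_pos h1]; omega
    · rw [if_neg h1] at hM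
      by_cases h2 : r = nx (S (r / 3))
      · rw [if_pos h2] at hM
        have := wants_take hI hl 0 (by simp [lX]) hM h
        simp at this
      · rw [if_neg h2] at hM
        rw [Rx_X, if_neg h2]
        have := mem1 (wants_take hI hl 1 (by simp [lX]) hM h)
        rw [this, Rx_P, if_neg h2]
        omega
  · -- P
    have hM := Mx_P (φ := φ) (τ := τ) (S := S) hr
    have hl := pref_P (φ := φ) hr
    by_cases h2 : r = nx (S (r / 3))
    · rw [if_pos h2] at hM
      rw [Rx_P, if_pos h2]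
      have h3 : pv r = S (r / 3) := by rw [h2, pv_nx, ← h2]
      rcases mem2 (wants_take hI hl 2 (by simp [lP]) hM h) with rfl | rfl
      · rw [Rx_Q, pv_div, if_pos h3]; omega
      · rw [zn_eq, Rx_C, zp_mod, if_pos]
        · omega
        · rw [h3]
          exact (hτ _ (by omega)).symm
    · rw [if_neg h2] at hM
      have := wants_take hI hl 0 (by simp [lP]) hM h
      simp at this
  · -- Q
    have hM := Mx_Q (φ := φ) (τ := τ) (S := S) hr
    have hl := pref_Q (φ := φ) hr
    by_cases h1 : r = S (r / 3)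
    · rw [if_pos h1] at hM
      have := wants_take hI hl 0 (by simp [lQ]) hM h
      simp at this
    · rw [if_neg h1] at hM
      rw [Rx_Q, if_neg h1]
      have := mem1 (wants_take hI hl 1 (by simp [lQ]) hM h)
      rw [this, Rx_X]
      by_cases h2 : r = nx (S (r / 3))
      · rw [if_pos h2, if_pos h2]; omega
      · rw [if_neg h2, if_neg h2]; omega

end Forth

variable {φ : List (Lit ℕ × Lit ℕ × Lit ℕ)}

/-- From a satisfying assignment to a cycle stable matching. -/
theorem stable_of_sat (h : SAT3 φ) : ∃ M, CycleStable (inst φ) M := by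
  obtain ⟨τ, hτ⟩ := h
  have h1 := slots_of_sat hτ
  choose! S hS using h1
  refine ⟨Mx φ τ S, cycleStable_of_rank (isMatching_Mx fun c hc => (hS c hc).1) (Rx τ S)
    fun x y hxy => rank_decr (fun c hc => (hS c hc).1) (fun c hc => (hS c hc).2) x y hxy⟩

theorem red_correct {L : ℕ} (hL : 3 ≤ L) : SAT3 φ ↔ CS L (inst φ) := by
  constructor
  · intro h
    exact ⟨isInst_inst, fun a => (length_pref_le a).trans hL, stable_of_sat h⟩
  · rintro ⟨-, -, M, hM⟩
    exact sat_of_stable hM.three

theorem red_correct3 {L : ℕ} (hL : 3 ≤ L) : SAT3 φ ↔ CS3 L (inst φ) := by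
  constructor
  · intro h
    obtain ⟨M, hM⟩ := stable_of_sat h
    exact ⟨isInst_inst, fun a => (length_pref_le a).trans hL, M, hM.three⟩
  · rintro ⟨-, -, M, hM⟩
    exact sat_of_stable hM

end Pool.Agent.NPC.R536CS
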