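import Pool.Agent.R536.CS.Exist

/-!
# Lists of length at most two: membership in P
-/

set_option autoImplicit false

namespace Pool.Agent.NPC.R536CS

theorem poly_fc {α : Type} [TEnc α] {I : α → Inst} {a : α → ℕ} (hI : Poly I) (ha : Poly a) :
    Poly (fun x => fc (I x) (a x)) := by
  refine Poly.congr (f := fun x => ((pref (I x) (a x)).head?).getD 0) (by fun_prop) fun x => ?_
  unfold fc
  rw [List.headD_eq_head?_getD]

attribute [fun_prop] poly_fc

theorem sz_fc (I : Inst) (a : ℕ) : sz (fc I a) ≤ sz I + 1 := by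
  unfold fc
  by_cases ha : a ∈ I.map Prod.fst
  · cases hl : pref I a with
    | nil => simp [sz_nat]
    | cons y l =>
      simp only [List.headD_cons]
      have hmem : (a, pref I a) ∈ I := by
        unfold pref at hl ⊢
        clear ha
        induction I with
        | nil => simp at hl
        | cons p I ih =>
          obtain ⟨b, l'⟩ := p
          rw [List.lookup_cons] at hl ⊢
          by_cases hab : a = b
          · subst hab
            simp
          · have h' : (a == b) = false := by simpa using hab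
            rw [h'] at hl ⊢
            exact List.mem_cons_of_mem _ (ih hl)
      rw [hl] at hmem
      have h1 := sz_le_of_mem hmem
      rw [sz_pair, sz_list_cons] at h1
      omega
  · rw [pref_of_notMem ha]
    simp [sz_nat]

theorem sz_iter (I : Inst) (x : ℕ) : ∀ k, sz ((fc I)^[k] x) ≤ sz I + sz x + 1
  | 0 => by simp only [Function.iterate_zero, id_eq]; omega
  | k + 1 => by
    rw [Function.iterate_succ_apply']
    have := sz_fc I ((fc I)^[k] x)
    omega

theorem poly_iter : Poly (fun p : Inst × ℕ × ℕ => (fc p.1)^[min p.2.2 (p.1.length + 2)] p.2.1) := by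
  have hlen : UPoly (fun p : Inst × ℕ × ℕ => min p.2.2 (p.1.length + 2)) :=
    UPoly.of_le (Poly.min (Poly.snd (Poly.snd Poly.id))
      ((UPoly.add (UPoly.length (Poly.fst Poly.id)) (UPoly.const 2)).toPoly))
      (UPoly.add (UPoly.length (Poly.fst Poly.id)) (UPoly.const 2)) fun p => min_le_right _ _
  refine (Poly.iterLen (l := fun p : Inst × ℕ × ℕ => List.replicate (min p.2.2 (p.1.length + 2)) ())
    (s := fun p => p.2.1) (F := fun p a => fc p.1 a) hlen (by fun_prop) (by fun_prop)
    (Polynomial.X + 1) ?_).congr fun p => by rw [List.length_replicate]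
  rintro ⟨I, x, i⟩ k _
  have := sz_iter I x k
  change sz ((fc I)^[k] x) ≤ _
  simp only [sz_pair, Polynomial.eval_add, Polynomial.eval_X, Polynomial.eval_one]
  omega

theorem poly_iter' {α : Type} [TEnc α] {I : α → Inst} {x i : α → ℕ} (hI : Poly I) (hx : Poly x)
    (hi : Poly i) : Poly (fun a => (fc (I a))^[min (i a) ((I a).length + 2)] (x a)) :=
  poly_iter.comp (f := fun a => (I a, x a, i a)) (Poly.pair hI (Poly.pair hx hi))

/-- The criterion with bounded iterates. -/
theorem crit_iff (I : Inst) : Crit I ↔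
    ∃ x ∈ I.map Prod.fst, ∃ k ∈ List.range (I.length + 1), k % 2 = 1 ∧
      (fc I)^[min k (I.length + 2)] x = x ∧
      ∀ i ∈ List.range (I.length + 1), k ≤ i ∨
        pref I ((fc I)^[min (i + 1) (I.length + 2)] x) =
          [(fc I)^[min (i + 2) (I.length + 2)] x, (fc I)^[min i (I.length + 2)] x] := by
  unfold Crit
  refine exists_congr fun x => and_congr_right fun _ => exists_congr fun k =>
    and_congr_right fun hk => and_congr_right fun _ => ?_
  rw [List.mem_range] at hk
  rw [min_eq_left (by omega : k ≤ I.length + 2)]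
  refine and_congr_right fun _ => forall₂_congr fun i hi => ?_
  rw [List.mem_range] at hi
  rw [min_eq_left (by omega : i + 1 ≤ I.length + 2), min_eq_left (by omega : i + 2 ≤ I.length + 2),
    min_eq_left (by omega : i ≤ I.length + 2)]

theorem pp_crit : PP Crit := by
  refine PP.congr ?_ fun I => (crit_iff I).symm
  have hr : Poly (fun I : Inst => List.range (I.length + 1)) :=
    (UPoly.add (UPoly.length Poly.id) (UPoly.const 1)).range
  refine PP.bex (l := fun I : Inst => I.map Prod.fst) (r := fun I x =>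
    ∃ k ∈ List.range (I.length + 1), k % 2 = 1 ∧ (fc I)^[min k (I.length + 2)] x = x ∧
      ∀ i ∈ List.range (I.length + 1), k ≤ i ∨
        pref I ((fc I)^[min (i + 1) (I.length + 2)] x) =
          [(fc I)^[min (i + 2) (I.length + 2)] x, (fc I)^[min i (I.length + 2)] x])
    (by fun_prop) ?_
  refine PP.bex (l := fun p : Inst × ℕ => List.range (p.1.length + 1)) (r := fun p k =>
    k % 2 = 1 ∧ (fc p.1)^[min k (p.1.length + 2)] p.2 = p.2 ∧
      ∀ i ∈ List.range (p.1.length + 1), k ≤ i ∨
        pref p.1 ((fc p.1)^[min (i + 1) (p.1.length + 2)] p.2) =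
          [(fc p.1)^[min (i + 2) (p.1.length + 2)] p.2, (fc p.1)^[min i (p.1.length + 2)] p.2])
    (hr.comp (Poly.fst Poly.id)) ?_
  refine PP.and (PP.eq (by fun_prop) (Poly.const 1)) (PP.and (PP.eq (poly_iter' (by fun_prop)
    (by fun_prop) (by fun_prop)) (by fun_prop)) ?_)
  refine PP.ball (l := fun p : (Inst × ℕ) × ℕ => List.range (p.1.1.length + 1)) (r := fun p i =>
    p.2 ≤ i ∨ pref p.1.1 ((fc p.1.1)^[min (i + 1) (p.1.1.length + 2)] p.1.2) =
      [(fc p.1.1)^[min (i + 2) (p.1.1.length + 2)] p.1.2,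
        (fc p.1.1)^[min i (p.1.1.length + 2)] p.1.2])
    (hr.comp (Poly.fst (Poly.fst Poly.id))) ?_
  have h1 : ∀ c : ℕ, Poly (fun p : ((Inst × ℕ) × ℕ) × ℕ =>
      (fc p.1.1.1)^[min (p.2 + c) (p.1.1.1.length + 2)] p.1.1.2) := fun c =>
    poly_iter' (i := fun p : ((Inst × ℕ) × ℕ) × ℕ => p.2 + c) (by fun_prop) (by fun_prop)
      (by fun_prop)
  exact PP.or (PP.le (by fun_prop) (by fun_prop)) (PP.eq (poly_pref (by fun_prop) (h1 1))
    (Poly.cons (h1 2) (Poly.cons (h1 0) (Poly.const []))))

theorem inPP_of_pp {α : Type} [TEnc α] [TDec α] {P : α → Prop} (h : PP P) : InPP P := by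
  obtain ⟨b, hb, hb'⟩ := h
  exact inPP_of hb fun a => (hb' a).symm

theorem p_CS {L : ℕ} (hL : L ≤ 2) : InPP (CS L) := by
  refine inPP_of_pp (PP.congr (PP.and pp_isInst (PP.and (pp_length L) (PP.not pp_crit)))
    fun I => ?_)
  unfold CS
  refine and_congr_right fun hI => and_congr_right fun hlen => ?_
  exact (exists_iff_not_crit hI fun a => (hlen a).trans hL).symm

theorem p_CS3 {L : ℕ} (hL : L ≤ 2) : InPP (CS3 L) := by
  refine inPP_of_pp (PP.congr (PP.and pp_isInst (PP.and (pp_length L) (PP.not pp_crit)))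
    fun I => ?_)
  unfold CS3
  refine and_congr_right fun hI => and_congr_right fun hlen => ?_
  exact (exists3_iff_not_crit hI fun a => (hlen a).trans hL).symm

end Pool.Agent.NPC.R536CS
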