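import Pool.Agent.R536.CS.Defs

/-!
# The roommates instance of a formula
-/

set_option autoImplicit false

namespace Pool.Agent.NPC.R536CS

/-- The names of the agents. -/
def nm (k i j : ℕ) : ℕ := Nat.pair k (Nat.pair i j)

theorem nm_inj {k i j k' i' j' : ℕ} : nm k i j = nm k' i' j' ↔ k = k' ∧ i = i' ∧ j = j' := by
  simp [nm, Nat.pair_eq_pair]

/-- The next slot of the clause. -/
def nx (r : ℕ) : ℕ := 3 * (r / 3) + (r % 3 + 1) % 3

/-- The previous slot of the clause. -/
def pv (r : ℕ) : ℕ := 3 * (r / 3) + (r % 3 + 2) % 3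

theorem nx_pv (r : ℕ) : nx (pv r) = r := by unfold nx pv; omega
theorem pv_nx (r : ℕ) : pv (nx r) = r := by unfold nx pv; omega
theorem nx_nx (r : ℕ) : nx (nx r) = pv r := by unfold nx pv; omega
theorem pv_pv (r : ℕ) : pv (pv r) = nx r := by unfold nx pv; omega
theorem nx_ne (r : ℕ) : nx r ≠ r := by unfold nx; omega
theorem pv_ne (r : ℕ) : pv r ≠ r := by unfold pv; omega
theorem nx_ne_pv (r : ℕ) : nx r ≠ pv r := by unfold nx pv; omega
theorem nx_div (r : ℕ) : nx r / 3 = r / 3 := by unfold nx; omega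
theorem pv_div (r : ℕ) : pv r / 3 = r / 3 := by unfold pv; omega
theorem nx_lt {r m : ℕ} (h : r < 3 * m) : nx r < 3 * m := by unfold nx; omega
theorem pv_lt {r m : ℕ} (h : r < 3 * m) : pv r < 3 * m := by unfold pv; omega
theorem slot_cases {r s : ℕ} (h : r / 3 = s / 3) : r = s ∨ r = nx s ∨ r = pv s := by
  unfold nx pv; omega

/-- The next position on a cycle with `n` elements. -/
def sc (n j : ℕ) : ℕ := if j + 1 = n then 0 else j + 1

/-- The previous position on a cycle with `n` elements. -/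
def pd (n j : ℕ) : ℕ := if j = 0 then n - 1 else j - 1

theorem sc_lt {n j : ℕ} (h : j < n) : sc n j < n := by unfold sc; split_ifs <;> omega
theorem pd_lt {n j : ℕ} (h : j < n) : pd n j < n := by unfold pd; split_ifs <;> omega
theorem sc_pd {n j : ℕ} (h : j < n) : sc n (pd n j) = j := by
  by_cases h0 : j = 0
  · rw [pd, if_pos h0, sc, if_pos (by omega), h0]
  · rw [pd, if_neg h0, sc, if_neg (by omega)]
    omega
theorem pd_sc {n j : ℕ} (h : j < n) : pd n (sc n j) = j := by
  by_cases h0 : j + 1 = n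
  · rw [sc, if_pos h0, pd, if_pos rfl]
    omega
  · rw [sc, if_neg h0, pd, if_neg (by omega)]
    omega
theorem sc_ne {n j : ℕ} (hn : 3 ≤ n) : sc n j ≠ j := by
  unfold sc; split_ifs <;> omega
theorem pd_ne {n j : ℕ} (hn : 3 ≤ n) : pd n j ≠ j := by
  unfold pd; split_ifs <;> omega
theorem sc_ne_pd {n j : ℕ} (hn : 3 ≤ n) (h : j < n) : sc n j ≠ pd n j := by
  unfold sc pd; split_ifs <;> omega

variable (φ : List (Lit ℕ × Lit ℕ × Lit ℕ))

/-- All occurrences of literals. -/
def lits : List (Lit ℕ) := φ.flatMap (fun c => [c.1, c.2.1, c.2.2])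

/-- The number of agents of the cycle of a variable. -/
def cl : ℕ := 6 * φ.length

/-- The sign of an occurrence. -/
def sg (r : ℕ) : Bool := ((lits φ).getD r (true, 0)).1

/-- The variable of an occurrence. -/
def vr (r : ℕ) : ℕ := ((lits φ).getD r (true, 0)).2

/-- The variables. -/
def vars : List ℕ := ((lits φ).map Prod.snd).dedup

/-- The agent of an occurrence of a literal. -/
def zn (r : ℕ) : ℕ := nm 0 (vr φ r) (2 * r + (bif sg φ r then 0 else 1))

/-- Preference lists of the agents of the cycles of the variables. -/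
def lC (v j : ℕ) : List ℕ :=
  if nm 0 v j = zn φ (j / 2) then
    [nm 0 v (sc (cl φ) j), nm 3 (nx (j / 2)) 0, nm 0 v (pd (cl φ) j)]
  else [nm 0 v (sc (cl φ) j), nm 0 v (pd (cl φ) j)]

/-- Preference lists of the agents of the triangles. -/
def lA (r : ℕ) : List ℕ := [nm 1 (nx r) 0, nm 2 r 0, nm 1 (pv r) 0]

/-- Preference lists of further agents of the clause. -/
def lX (r : ℕ) : List ℕ := [nm 3 r 0, nm 1 r 0, nm 4 r 0]

/-- Preference lists of further agents of the clause. -/
def lP (r : ℕ) : List ℕ := [nm 4 (pv r) 0, zn φ (pv r), nm 2 r 0]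

/-- Preference lists of further agents of the clause. -/
def lQ (r : ℕ) : List ℕ := [nm 2 r 0, nm 3 (nx r) 0]

/-- The instance of a formula. -/
def inst : Inst :=
  (vars φ).flatMap (fun v => (List.range (cl φ)).map (fun j => (nm 0 v j, lC φ v j))) ++
  (List.range (3 * φ.length)).flatMap (fun r =>
    [(nm 1 r 0, lA r), (nm 2 r 0, lX r), (nm 3 r 0, lP φ r), (nm 4 r 0, lQ r)])

variable {φ}

theorem length_lits : (lits φ).length = 3 * φ.length := by
  unfold lits
  induction φ with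
  | nil => rfl
  | cons c φ ih =>
    rw [List.flatMap_cons, List.length_append, ih]
    simp
    ring

theorem vr_mem {r : ℕ} (h : r < 3 * φ.length) : vr φ r ∈ vars φ := by
  unfold vr vars
  rw [List.mem_dedup, List.getD_eq_getElem _ _ (by rw [length_lits]; exact h)]
  exact List.mem_map_of_mem (List.getElem_mem _)

theorem pos_of_mem {v : ℕ} (h : v ∈ vars φ) : 0 < φ.length := by
  unfold vars at h
  rw [List.mem_dedup, List.mem_map] at h
  obtain ⟨a, ha, -⟩ := h
  have := List.length_pos_of_mem ha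
  rw [length_lits] at this
  omega

theorem cl_ge {v : ℕ} (h : v ∈ vars φ) : 6 ≤ cl φ := by
  have := pos_of_mem h
  unfold cl; omega

theorem mem_names {x : ℕ} : x ∈ (inst φ).map Prod.fst ↔
    (∃ v ∈ vars φ, ∃ j < cl φ, nm 0 v j = x) ∨ (∃ r < 3 * φ.length,
      x = nm 1 r 0 ∨ x = nm 2 r 0 ∨ x = nm 3 r 0 ∨ x = nm 4 r 0) := by
  unfold inst
  rw [List.map_append, List.mem_append, List.map_flatMap, List.map_flatMap]
  simp only [List.mem_flatMap, List.map_map, List.mem_map, List.mem_range, Function.comp_apply,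
    List.map_cons, List.map_nil, List.mem_cons, List.not_mem_nil, or_false]

theorem names_nodup : ((inst φ).map Prod.fst).Nodup := by
  unfold inst
  rw [List.map_append, List.map_flatMap, List.map_flatMap, List.nodup_append]
  refine ⟨?_, ?_, ?_⟩
  · rw [List.nodup_flatMap]
    constructor
    · intro v _
      rw [List.map_map]
      refine List.nodup_range.map ?_
      intro j j' h
      simp only [Function.comp, nm_inj] at h
      exact h.2.2
    · refine (List.nodup_dedup _).imp ?_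
      intro v v' hne x hx hx'
      simp only [List.map_map, List.mem_map, Function.comp] at hx hx'
      obtain ⟨j, -, rfl⟩ := hx
      obtain ⟨j', -, h⟩ := hx'
      rw [nm_inj] at h
      exact hne h.2.1.symm
  · rw [List.nodup_flatMap]
    constructor
    · intro r _
      simp [nm_inj]
    · refine List.nodup_range.imp ?_
      intro r r' hne x hx hx'
      simp only [List.map_cons, List.map_nil, List.mem_cons, List.not_mem_nil, or_false] at hx hx'
      rcases hx with rfl | rfl | rfl | rfl <;> rcases hx' with h | h | h | h <;>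
        · rw [nm_inj] at h
          exact absurd h.2.1 hne
  · intro x hx y hy
    rintro rfl
    simp only [List.mem_flatMap, List.mem_map, List.map_cons, List.map_nil, List.mem_cons,
      List.not_mem_nil, or_false] at hx hy
    obtain ⟨v, -, j, ⟨j', -, rfl⟩, rfl⟩ := hx
    obtain ⟨r, -, h | h | h | h⟩ := hy <;>
      · rw [nm_inj] at h
        simp at h

theorem pref_C {v j : ℕ} (hv : v ∈ vars φ) (hj : j < cl φ) :
    pref (inst φ) (nm 0 v j) = lC φ v j := by
  refine pref_of_mem names_nodup ?_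
  unfold inst
  refine List.mem_append_left _ (List.mem_flatMap.2 ⟨v, hv, ?_⟩)
  exact List.mem_map.2 ⟨j, List.mem_range.2 hj, rfl⟩

theorem pref_A {r : ℕ} (hr : r < 3 * φ.length) : pref (inst φ) (nm 1 r 0) = lA r := by
  refine pref_of_mem names_nodup ?_
  unfold inst
  exact List.mem_append_right _ (List.mem_flatMap.2 ⟨r, List.mem_range.2 hr, by simp⟩)

theorem pref_X {r : ℕ} (hr : r < 3 * φ.length) : pref (inst φ) (nm 2 r 0) = lX r := by
  refine pref_of_mem names_nodup ?_
  unfold inst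
  exact List.mem_append_right _ (List.mem_flatMap.2 ⟨r, List.mem_range.2 hr, by simp⟩)

theorem pref_P {r : ℕ} (hr : r < 3 * φ.length) : pref (inst φ) (nm 3 r 0) = lP φ r := by
  refine pref_of_mem names_nodup ?_
  unfold inst
  exact List.mem_append_right _ (List.mem_flatMap.2 ⟨r, List.mem_range.2 hr, by simp⟩)

theorem pref_Q {r : ℕ} (hr : r < 3 * φ.length) : pref (inst φ) (nm 4 r 0) = lQ r := by
  refine pref_of_mem names_nodup ?_
  unfold inst
  exact List.mem_append_right _ (List.mem_flatMap.2 ⟨r, List.mem_range.2 hr, by simp⟩)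

/-- All possibilities for an agent. -/
theorem agent_cases (φ : List (Lit ℕ × Lit ℕ × Lit ℕ)) (x : ℕ) :
    (x ∉ (inst φ).map Prod.fst ∧ pref (inst φ) x = []) ∨
    (∃ v ∈ vars φ, ∃ j < cl φ, x = nm 0 v j) ∨
    (∃ r < 3 * φ.length, x = nm 1 r 0) ∨ (∃ r < 3 * φ.length, x = nm 2 r 0) ∨
    (∃ r < 3 * φ.length, x = nm 3 r 0) ∨ (∃ r < 3 * φ.length, x = nm 4 r 0) := by
  by_cases h : x ∈ (inst φ).map Prod.fst
  · right
    rcases mem_names.1 h with ⟨v, hv, j, hj, rfl⟩ | ⟨r, hr, h | h | h | h⟩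
    · exact Or.inl ⟨v, hv, j, hj, rfl⟩
    · exact Or.inr (Or.inl ⟨r, hr, h⟩)
    · exact Or.inr (Or.inr (Or.inl ⟨r, hr, h⟩))
    · exact Or.inr (Or.inr (Or.inr (Or.inl ⟨r, hr, h⟩)))
    · exact Or.inr (Or.inr (Or.inr (Or.inr ⟨r, hr, h⟩)))
  · exact Or.inl ⟨h, pref_of_notMem h⟩

/-- The position of the agent of an occurrence. -/
def zp (φ : List (Lit ℕ × Lit ℕ × Lit ℕ)) (r : ℕ) : ℕ := 2 * r + (bif sg φ r then 0 else 1)

theorem zn_eq (r : ℕ) : zn φ r = nm 0 (vr φ r) (zp φ r) := rfl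

theorem zp_div (r : ℕ) : zp φ r / 2 = r := by
  unfold zp; cases sg φ r <;> simp <;> omega

theorem zp_lt {r : ℕ} (h : r < 3 * φ.length) : zp φ r < cl φ := by
  unfold zp cl; cases sg φ r <;> simp <;> omega

theorem zp_mod (r : ℕ) : decide (zp φ r % 2 = 0) = sg φ r := by
  unfold zp; cases sg φ r <;> simp 

theorem pref_zn {r : ℕ} (hr : r < 3 * φ.length) : pref (inst φ) (zn φ r) =
    [nm 0 (vr φ r) (sc (cl φ) (zp φ r)), nm 3 (nx r) 0, nm 0 (vr φ r) (pd (cl φ) (zp φ r))] := by
  rw [zn_eq, pref_C (vr_mem hr) (zp_lt hr), lC, zp_div, if_pos (zn_eq r).symm]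

theorem lC_cases (v j : ℕ) : (nm 0 v j = zn φ (j / 2) ∧
    lC φ v j = [nm 0 v (sc (cl φ) j), nm 3 (nx (j / 2)) 0, nm 0 v (pd (cl φ) j)]) ∨
    lC φ v j = [nm 0 v (sc (cl φ) j), nm 0 v (pd (cl φ) j)] := by
  unfold lC
  split_ifs with h
  · exact Or.inl ⟨h, rfl⟩
  · exact Or.inr rfl

theorem pd_mem_lC (v j : ℕ) : nm 0 v (pd (cl φ) j) ∈ lC φ v j := by
  rcases lC_cases (φ := φ) v j with ⟨-, h⟩ | h <;> rw [h] <;> simp

theorem sc_mem_lC (v j : ℕ) : nm 0 v (sc (cl φ) j) ∈ lC φ v j := by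
  rcases lC_cases (φ := φ) v j with ⟨-, h⟩ | h <;> rw [h] <;> simp

theorem isInst_inst : IsInst (inst φ) where
  nodup := names_nodup
  pref_nodup := by
    intro x
    rcases agent_cases φ x with ⟨-, h⟩ | ⟨v, hv, j, hj, rfl⟩ | ⟨r, hr, rfl⟩ | ⟨r, hr, rfl⟩ |
      ⟨r, hr, rfl⟩ | ⟨r, hr, rfl⟩
    · rw [h]; exact List.nodup_nil
    · rw [pref_C hv hj]
      have h1 := sc_ne_pd (show 3 ≤ cl φ by have := cl_ge hv; omega) hj
      rcases lC_cases (φ := φ) v j with ⟨-, h⟩ | h <;> rw [h] <;> simp [nm_inj, h1]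
    · rw [pref_A hr]
      simp [lA, nm_inj, nx_ne_pv]
    · rw [pref_X hr]
      simp [lX, nm_inj]
    · rw [pref_P hr]
      simp [lP, nm_inj, zn_eq]
    · rw [pref_Q hr]
      simp [lQ, nm_inj]
  irrefl := by
    intro x
    rcases agent_cases φ x with ⟨-, h⟩ | ⟨v, hv, j, hj, rfl⟩ | ⟨r, hr, rfl⟩ | ⟨r, hr, rfl⟩ |
      ⟨r, hr, rfl⟩ | ⟨r, hr, rfl⟩
    · rw [h]; exact List.not_mem_nil
    · rw [pref_C hv hj]
      have h0 : 3 ≤ cl φ := by have := cl_ge hv; omega
      have h1 := sc_ne (j := j) h0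
      have h2 := pd_ne (j := j) h0
      rcases lC_cases (φ := φ) v j with ⟨-, h⟩ | h <;> rw [h] <;>
        simp [nm_inj, Ne.symm h1, Ne.symm h2]
    · rw [pref_A hr]
      simp [lA, nm_inj, Ne.symm (nx_ne r), Ne.symm (pv_ne r)]
    · rw [pref_X hr]
      simp [lX, nm_inj]
    · rw [pref_P hr]
      simp [lP, nm_inj, zn_eq]
    · rw [pref_Q hr]
      simp [lQ, nm_inj]
  symm := by
    intro x y hy
    rcases agent_cases φ x with ⟨-, h⟩ | ⟨v, hv, j, hj, rfl⟩ | ⟨r, hr, rfl⟩ | ⟨r, hr, rfl⟩ |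
      ⟨r, hr, rfl⟩ | ⟨r, hr, rfl⟩
    · rw [h] at hy; exact absurd hy List.not_mem_nil
    · rw [pref_C hv hj] at hy
      have hy' : y = nm 0 v (sc (cl φ) j) ∨ y = nm 0 v (pd (cl φ) j) ∨
          (nm 0 v j = zn φ (j / 2) ∧ y = nm 3 (nx (j / 2)) 0) := by
        rcases lC_cases (φ := φ) v j with ⟨h1, h⟩ | h <;> rw [h] at hy <;>
          simp only [List.mem_cons, List.not_mem_nil, or_false] at hy <;> tauto
      rcases hy' with rfl | rfl | ⟨h1, rfl⟩
      · rw [pref_C hv (sc_lt hj)]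
        have := pd_mem_lC (φ := φ) v (sc (cl φ) j)
        rwa [pd_sc hj] at this
      · rw [pref_C hv (pd_lt hj)]
        have := sc_mem_lC (φ := φ) v (pd (cl φ) j)
        rwa [sc_pd hj] at this
      · have hr : j / 2 < 3 * φ.length := by unfold cl at hj; omega
        rw [pref_P (nx_lt hr), lP, pv_nx, h1]
        simp
    · rw [pref_A hr] at hy
      simp only [lA, List.mem_cons, List.not_mem_nil, or_false] at hy
      rcases hy with rfl | rfl | rfl
      · rw [pref_A (nx_lt hr), lA, pv_nx]; simp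
      · rw [pref_X hr, lX]; simp
      · rw [pref_A (pv_lt hr), lA, nx_pv]; simp
    · rw [pref_X hr] at hy
      simp only [lX, List.mem_cons, List.not_mem_nil, or_false] at hy
      rcases hy with rfl | rfl | rfl
      · rw [pref_P hr, lP]; simp
      · rw [pref_A hr, lA]; simp
      · rw [pref_Q hr, lQ]; simp
    · rw [pref_P hr] at hy
      simp only [lP, List.mem_cons, List.not_mem_nil, or_false] at hy
      rcases hy with rfl | rfl | rfl
      · rw [pref_Q (pv_lt hr), lQ, nx_pv]; simp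
      · rw [pref_zn (pv_lt hr), nx_pv]; simp
      · rw [pref_X hr, lX]; simp
    · rw [pref_Q hr] at hy
      simp only [lQ, List.mem_cons, List.not_mem_nil, or_false] at hy
      rcases hy with rfl | rfl
      · rw [pref_X hr, lX]; simp
      · rw [pref_P (nx_lt hr), lP, pv_nx]; simp

theorem length_pref_le (x : ℕ) : (pref (inst φ) x).length ≤ 3 := by
  rcases agent_cases φ x with ⟨-, h⟩ | ⟨v, hv, j, hj, rfl⟩ | ⟨r, hr, rfl⟩ | ⟨r, hr, rfl⟩ |
    ⟨r, hr, rfl⟩ | ⟨r, hr, rfl⟩
  · rw [h]; simp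
  · rw [pref_C hv hj]
    rcases lC_cases (φ := φ) v j with ⟨-, h⟩ | h <;> rw [h] <;> simp
  · rw [pref_A hr]; simp [lA]
  · rw [pref_X hr]; simp [lX]
  · rw [pref_P hr]; simp [lP]
  · rw [pref_Q hr]; simp [lQ]

end Pool.Agent.NPC.R536CS
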