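import Pool.Agent.R536.CS.RedPoly

/-!
# Membership in NP
-/

set_option autoImplicit false

namespace Pool.Agent.NPC.R536CS

/-! ### Tools -/

section

variable {α β γ : Type} [TEnc α] [TEnc β] [TEnc γ]

theorem poly_idxOf [DecidableEq β] {l : α → List β} {b : α → β} (hl : Poly l) (hb : Poly b) :
    Poly (fun a => (l a).idxOf (b a)) := by
  obtain ⟨r, hr⟩ := hl.sz_le
  have key : ∀ (b : β) (l : List β),
      l.foldr (fun x acc => if x = b then 0 else acc + 1) 0 = l.idxOf b := by
    intro b l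
    induction l with
    | nil => rfl
    | cons x l ih =>
      rw [List.foldr_cons, ih, List.idxOf_cons]
      by_cases h : x = b
      · simp [h]
      · have h' : (x == b) = false := by simpa using h
        simp [h, h']
  refine (Poly.foldr (l := l) (s := fun _ => 0)
    (F := fun a x acc => if x = b a then 0 else acc + 1) hl (Poly.const _)
    (Poly.ite (Poly.decide_eq (Poly.fst (Poly.snd Poly.id)) (hb.comp (Poly.fst Poly.id)))
      (Poly.const 0) (Poly.succ (Poly.snd (Poly.snd Poly.id))))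
      (Polynomial.C 4 * r + Polynomial.C 1) ?_).congr
    fun a => key (b a) (l a)
  intro a k _
  rw [key]
  have h1 : ((l a).drop k).idxOf (b a) ≤ ((l a).drop k).length := List.idxOf_le_length
  have h2 := length_lt_sz ((l a).drop k)
  have h3 := Poly.sz_drop_le (l a) k
  have h4 := hr a
  have h5 := sz_nat_le (((l a).drop k).idxOf (b a))
  have h6 := Poly.size_le_self (((l a).drop k).idxOf (b a))
  simp only [Polynomial.eval_add, Polynomial.eval_mul, Polynomial.eval_C]
  omega

omit [TEnc γ] in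
theorem lookup_eq_filter (l : List (ℕ × γ)) (i : ℕ) :
    l.lookup i = ((l.filter (fun p => decide (p.1 = i))).map Prod.snd).head? := by
  induction l with
  | nil => rfl
  | cons p l ih =>
    obtain ⟨k, v⟩ := p
    rw [List.lookup_cons, ih]
    by_cases h : k = i
    · subst h
      simp
    · have h' : (i == k) = false := by simp [Ne.symm h]
      rw [h']
      simp [h]

theorem poly_lookup {l : α → List (ℕ × γ)} {i : α → ℕ} (hl : Poly l) (hi : Poly i) :
    Poly (fun a => (l a).lookup (i a)) := by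
  refine Poly.congr (f := fun a =>
    (((l a).filter (fun p => decide (p.1 = i a))).map Prod.snd).head?) ?_
    fun a => (lookup_eq_filter _ _).symm
  fun_prop

attribute [fun_prop] poly_idxOf poly_lookup

theorem poly_pref {I : α → Inst} {a : α → ℕ} (hI : Poly I) (ha : Poly a) :
    Poly (fun x => pref (I x) (a x)) := by
  unfold pref; fun_prop

theorem poly_names {I : α → Inst} (hI : Poly I) : Poly (fun x => (I x).map Prod.fst) := by
  fun_prop

attribute [fun_prop] poly_pref

theorem pp_wants {I : α → Inst} {M : α → ℕ → ℕ} {a b : α → ℕ} (hI : Poly I)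
    (hM : Poly (fun x => M x (a x))) (ha : Poly a) (hb : Poly b) :
    PP (fun x => Wants (I x) (M x) (a x) (b x)) := by
  unfold Wants Prefers
  exact PP.or (PP.and (PP.eq hM ha) (PP.mem hb (poly_pref hI ha)))
    (PP.and (PP.ne hM ha) (PP.and (PP.mem hb (poly_pref hI ha))
      (PP.lt (poly_idxOf (poly_pref hI ha) hb) (poly_idxOf (poly_pref hI ha) hM))))

end

theorem mem_names_of_pref {I : Inst} {a b : ℕ} (h : b ∈ pref I a) : a ∈ I.map Prod.fst := by
  by_contra hn
  rw [pref_of_notMem hn] at h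
  exact List.not_mem_nil h

theorem isInst_iff (I : Inst) : IsInst I ↔ (I.map Prod.fst).Nodup ∧
    ∀ a ∈ I.map Prod.fst, (pref I a).Nodup ∧ a ∉ pref I a ∧ ∀ b ∈ pref I a, a ∈ pref I b := by
  constructor
  · intro h
    exact ⟨h.nodup, fun a _ => ⟨h.pref_nodup a, h.irrefl a, fun b hb => h.symm a b hb⟩⟩
  · rintro ⟨h1, h2⟩
    refine ⟨h1, fun a => ?_, fun a => ?_, fun a b hb => ?_⟩
    · by_cases ha : a ∈ I.map Prod.fst
      · exact (h2 a ha).1
      · rw [pref_of_notMem ha]; exact List.nodup_nil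
    · by_cases ha : a ∈ I.map Prod.fst
      · exact (h2 a ha).2.1
      · rw [pref_of_notMem ha]; exact List.not_mem_nil
    · exact (h2 a (mem_names_of_pref hb)).2.2 b hb

theorem pp_isInst : PP IsInst := by
  refine PP.congr ?_ fun I => (isInst_iff I).symm
  refine PP.and (Pool.Agent.Y592.OP.pp_nodup (by fun_prop)) ?_
  refine PP.ball (l := fun I : Inst => I.map Prod.fst) (r := fun I a => (pref I a).Nodup ∧
    a ∉ pref I a ∧ ∀ b ∈ pref I a, a ∈ pref I b) (by fun_prop) ?_
  refine PP.and (Pool.Agent.Y592.OP.pp_nodup (by fun_prop)) (PP.and (PP.not (PP.mem (by fun_prop)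
    (by fun_prop))) ?_)
  exact PP.ball (l := fun p : Inst × ℕ => pref p.1 p.2)
    (r := fun (p : Inst × ℕ) b => p.2 ∈ pref p.1 b) (by fun_prop) (PP.mem (by fun_prop)
    (by fun_prop))

theorem length_iff (L : ℕ) (I : Inst) : (∀ a, (pref I a).length ≤ L) ↔
    ∀ a ∈ I.map Prod.fst, (pref I a).length ≤ L := by
  constructor
  · exact fun h a _ => h a
  · intro h a
    by_cases ha : a ∈ I.map Prod.fst
    · exact h a ha
    · rw [pref_of_notMem ha]; simp

theorem pp_length (L : ℕ) : PP (fun I : Inst => ∀ a, (pref I a).length ≤ L) := by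
  refine PP.congr ?_ fun I => (length_iff L I).symm
  exact PP.ball (l := fun I : Inst => I.map Prod.fst) (r := fun I a => (pref I a).length ≤ L)
    (by fun_prop) (PP.le (by fun_prop) (by fun_prop))

/-- The matching given by a certificate. -/
def mw (I : Inst) (w : List (ℕ × ℕ)) (a : ℕ) : ℕ :=
  if a ∈ I.map Prod.fst then (w.lookup a).getD a else a

/-- The rank given by a certificate. -/
def rw' (w : List (ℕ × ℕ)) (a : ℕ) : ℕ := (w.lookup a).getD 0

theorem poly_mw {α : Type} [TEnc α] {I : α → Inst} {w : α → List (ℕ × ℕ)} {a : α → ℕ}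
    (hI : Poly I) (hw : Poly w) (ha : Poly a) : Poly (fun x => mw (I x) (w x) (a x)) := by
  unfold mw; fun_prop

theorem poly_rw {α : Type} [TEnc α] {w : α → List (ℕ × ℕ)} {a : α → ℕ}
    (hw : Poly w) (ha : Poly a) : Poly (fun x => rw' (w x) (a x)) := by
  unfold rw'; fun_prop

attribute [fun_prop] poly_mw poly_rw

theorem isMatching_iff (I : Inst) (w : List (ℕ × ℕ)) : IsMatching I (mw I w) ↔
    ∀ a ∈ I.map Prod.fst, mw I w (mw I w a) = a ∧ (mw I w a = a ∨ mw I w a ∈ pref I a) := by
  constructor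
  · exact fun h a _ => ⟨h.invol a, h.cases a⟩
  · intro h
    have h0 : ∀ a, a ∉ I.map Prod.fst → mw I w a = a := fun a ha => by unfold mw; rw [if_neg ha]
    refine ⟨fun a => ?_, fun a hne => ?_⟩
    · by_cases ha : a ∈ I.map Prod.fst
      · exact (h a ha).1
      · rw [h0 a ha, h0 a ha]
    · by_cases ha : a ∈ I.map Prod.fst
      · exact (h a ha).2.resolve_left hne
      · exact absurd (h0 a ha) hne

theorem pp_isMatching : PP (fun x : Inst × List (ℕ × ℕ) => IsMatching x.1 (mw x.1 x.2)) := by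
  refine PP.congr ?_ fun x => (isMatching_iff x.1 x.2).symm
  refine PP.ball (l := fun x : Inst × List (ℕ × ℕ) => x.1.map Prod.fst)
    (r := fun x a => mw x.1 x.2 (mw x.1 x.2 a) = a ∧ (mw x.1 x.2 a = a ∨
      mw x.1 x.2 a ∈ pref x.1 a)) (by fun_prop) ?_
  exact PP.and (PP.eq (by fun_prop) (by fun_prop)) (PP.or (PP.eq (by fun_prop) (by fun_prop))
    (PP.mem (by fun_prop) (by fun_prop)))

theorem lookup_map {l : List ℕ} {f : ℕ → ℕ} {a : ℕ} (h : a ∈ l) :
    (l.map (fun a => (a, f a))).lookup a = some (f a) := by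
  induction l with
  | nil => simp at h
  | cons b l ih =>
    rw [List.map_cons, List.lookup_cons]
    by_cases hab : a = b
    · simp [hab]
    · have h' : (a == b) = false := by simpa using hab
      rw [h']
      exact ih ((List.mem_cons.1 h).resolve_left hab)

theorem mw_map {I : Inst} {M : ℕ → ℕ} (hM : IsMatching I M) :
    mw I ((I.map Prod.fst).map (fun a => (a, M a))) = M := by
  funext a
  unfold mw
  by_cases ha : a ∈ I.map Prod.fst
  · rw [if_pos ha, lookup_map ha]; rfl
  · rw [if_neg ha]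
    by_contra hne
    have := hM.acceptable a (fun e => hne e.symm)
    rw [pref_of_notMem ha] at this
    exact List.not_mem_nil this

theorem rw_map {l : List ℕ} {f : ℕ → ℕ} {a : ℕ} (h : a ∈ l) :
    rw' (l.map (fun a => (a, f a))) a = f a := by
  unfold rw'; rw [lookup_map h]; rfl

theorem wants_pref {I : Inst} {M : ℕ → ℕ} {a b : ℕ} (h : Wants I M a b) : b ∈ pref I a := by
  rcases h with h | h
  · exact h.2
  · exact h.2.1

/-! ### Acyclicity gives a rank function -/

theorem walk_of_transGen {α : Type} {r : α → α → Prop} {a b : α} (h : Relation.TransGen r a b) :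
    ∃ (k : ℕ) (c : ℕ → α), 0 < k ∧ c 0 = a ∧ c k = b ∧ ∀ i < k, r (c i) (c (i + 1)) := by
  induction h with
  | @single b hab =>
    refine ⟨1, fun i => if i = 0 then a else b, by omega, by simp, by simp, ?_⟩
    intro i hi
    obtain rfl : i = 0 := by omega
    simpa using hab
  | @tail b d _ hbd ih =>
    obtain ⟨k, c, hk, h0, h1, h2⟩ := ih
    refine ⟨k + 1, fun i => if i = k + 1 then d else c i, by omega, ?_, by simp, ?_⟩
    · simp only
      rw [if_neg (by omega)]; exact h0
    · intro i hi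
      simp only
      rw [if_neg (by omega)]
      by_cases h3 : i = k
      · subst h3
        rw [if_pos rfl, h1]
        exact hbd
      · rw [if_neg (by omega)]
        exact h2 i (by omega)

theorem blocking_of_cycle {I : Inst} (hI : IsInst I) {M : ℕ → ℕ} {a : ℕ}
    (h : Relation.TransGen (Wants I M) a a) : ∃ c, IsBlockingCycle I M c := by
  classical
  have hex : ∃ k, 0 < k ∧ ∃ c : ℕ → ℕ, c k = c 0 ∧ ∀ i < k, Wants I M (c i) (c (i + 1)) := by
    obtain ⟨k, c, hk, h0, h1, h2⟩ := walk_of_transGen h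
    exact ⟨k, hk, c, by rw [h0, h1], h2⟩
  obtain ⟨hk, c, hc, hw⟩ := Nat.find_spec hex
  set k := Nat.find hex with hkdef
  have hmin : ∀ m, 0 < m → m < k → ¬ ∃ c : ℕ → ℕ, c m = c 0 ∧
      ∀ i < m, Wants I M (c i) (c (i + 1)) := fun m h1 h2 h3 => Nat.find_min hex h2 ⟨h1, h3⟩
  have hdist : ∀ i j, i < j → j < k → c i ≠ c j := by
    intro i j hij hj he
    refine hmin (j - i) (by omega) (by omega) ⟨fun t => c (i + t), ?_, ?_⟩
    · simp only [add_zero]
      rw [Nat.add_sub_cancel' hij.le]; exact he.symm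
    · intro t ht
      exact hw (i + t) (by omega)
  have hk2 : 2 ≤ k := by
    by_contra hlt
    have hk1 : k = 1 := by omega
    have h3 := wants_pref (hw 0 (by omega))
    rw [hk1] at hc
    rw [zero_add, hc] at h3
    exact hI.irrefl _ h3
  refine ⟨(List.range k).map c, by simpa using hk2, ?_, ?_⟩
  · refine List.Nodup.map_on ?_ List.nodup_range
    intro i hi j hj he
    rw [List.mem_range] at hi hj
    rcases lt_trichotomy i j with h1 | h1 | h1
    · exact absurd he (hdist i j h1 hj)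
    · exact h1
    · exact absurd he.symm (hdist j i h1 hi)
  · intro i hi
    rw [List.length_map, List.length_range] at hi
    have h1 : (i + 1) % k < k := Nat.mod_lt _ (by omega)
    rw [List.length_map, List.length_range, List.getD_eq_getElem _ _ (by simpa using hi),
      List.getD_eq_getElem _ _ (by simpa using h1)]
    simp only [List.getElem_map, List.getElem_range]
    by_cases h2 : i + 1 = k
    · rw [h2, Nat.mod_self, ← hc, ← h2]
      exact hw i hi
    · rw [Nat.mod_eq_of_lt (by omega)]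
      exact hw i hi

theorem exists_rank {I : Inst} (hI : IsInst I) {M : ℕ → ℕ} (h : CycleStable I M) :
    ∃ rk : ℕ → ℕ, (∀ a, rk a ≤ I.length) ∧ ∀ a b, Wants I M a b → rk b < rk a := by
  classical
  refine ⟨fun a => ((I.map Prod.fst).toFinset.filter
    (fun b => Relation.TransGen (Wants I M) a b)).card, fun a => ?_, fun a b hab => ?_⟩
  · refine (Finset.card_filter_le _ _).trans ((List.toFinset_card_le _).trans ?_)
    simp
  · refine Finset.card_lt_card ?_
    rw [Finset.ssubset_iff_of_subset]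
    · refine ⟨b, ?_, ?_⟩
      · rw [Finset.mem_filter, List.mem_toFinset]
        exact ⟨mem_names_of_pref (hI.symm _ _ (wants_pref hab)), Relation.TransGen.single hab⟩
      · rw [Finset.mem_filter]
        rintro ⟨-, hbb⟩
        obtain ⟨c, hc⟩ := blocking_of_cycle hI hbb
        exact h.2 c hc
    · intro x hx
      rw [Finset.mem_filter] at hx ⊢
      exact ⟨hx.1, Relation.TransGen.head hab hx.2⟩

/-! ### Sizes of the certificates -/

theorem sz_name_le {I : Inst} {a : ℕ} (h : a ∈ I.map Prod.fst) : sz a ≤ sz I := by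
  rw [List.mem_map] at h
  obtain ⟨p, hp, rfl⟩ := h
  have h1 := sz_le_of_mem hp
  obtain ⟨x, y⟩ := p
  rw [sz_pair] at h1
  simp only
  omega

theorem sz_cert {I : Inst} {f : ℕ → ℕ} (h : ∀ a ∈ I.map Prod.fst, sz (f a) ≤ 4 * sz I + 1) :
    sz ((I.map Prod.fst).map (fun a => (a, f a))) ≤ sz I * (5 * sz I + 3) + 1 := by
  have h1 := sz_le_length_mul ((I.map Prod.fst).map (fun a => (a, f a))) (5 * sz I + 2) (by
    intro p hp
    rw [List.mem_map] at hp
    obtain ⟨a, ha, rfl⟩ := hp
    rw [sz_pair]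
    have := h a ha
    have := sz_name_le ha
    omega)
  refine h1.trans ?_
  rw [List.length_map, List.length_map]
  have := length_lt_sz I
  exact Nat.add_le_add_right (Nat.mul_le_mul_right (5 * sz I + 3) this.le) 1

theorem partner_name {I : Inst} (hI : IsInst I) {M : ℕ → ℕ} (hM : IsMatching I M) {a : ℕ}
    (ha : a ∈ I.map Prod.fst) : M a ∈ I.map Prod.fst := by
  rcases hM.cases a with h | h
  · rwa [h]
  · exact mem_names_of_pref (hI.symm _ _ h)

theorem np_CS (L : ℕ) : InNPP (CS L) := by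
  refine R544.inNPP_of_pp (β := List (ℕ × ℕ) × List (ℕ × ℕ))
    (R := fun I w => IsInst I ∧ (∀ a, (pref I a).length ≤ L) ∧ IsMatching I (mw I w.1) ∧
      ∀ a ∈ I.map Prod.fst, ∀ b ∈ pref I a, ¬ Wants I (mw I w.1) a b ∨ rw' w.2 b < rw' w.2 a) ?_
    ((Polynomial.X * (5 * Polynomial.X + 3) + 1) + (Polynomial.X * (5 * Polynomial.X + 3) + 1) + 1)
    ?_ ?_
  · refine PP.and (pp_isInst.comp (Poly.fst Poly.id)) (PP.and ((pp_length L).comp
      (Poly.fst Poly.id)) (PP.and (pp_isMatching.comp (f := fun x : Inst × (List (ℕ × ℕ) ×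
      List (ℕ × ℕ)) => (x.1, x.2.1)) (by fun_prop)) ?_))
    refine PP.ball (l := fun x : Inst × (List (ℕ × ℕ) × List (ℕ × ℕ)) => x.1.map Prod.fst)
      (r := fun x a => ∀ b ∈ pref x.1 a, ¬ Wants x.1 (mw x.1 x.2.1) a b ∨
        rw' x.2.2 b < rw' x.2.2 a) (by fun_prop) ?_
    refine PP.ball (l := fun x : (Inst × (List (ℕ × ℕ) × List (ℕ × ℕ))) × ℕ => pref x.1.1 x.2)
      (r := fun x b => ¬ Wants x.1.1 (mw x.1.1 x.1.2.1) x.2 b ∨
        rw' x.1.2.2 b < rw' x.1.2.2 x.2) (by fun_prop) ?_
    exact PP.or (PP.not (pp_wants (M := fun x : ((Inst × (List (ℕ × ℕ) × List (ℕ × ℕ))) × ℕ) × ℕ =>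
      mw x.1.1.1 x.1.1.2.1) (by fun_prop) (by fun_prop) (by fun_prop) (by fun_prop)))
      (PP.lt (by fun_prop) (by fun_prop))
  · rintro I ⟨hI, hL, M, hM⟩
    obtain ⟨rk, hrk, hrk'⟩ := exists_rank hI hM
    refine ⟨((I.map Prod.fst).map (fun a => (a, M a)), (I.map Prod.fst).map (fun a => (a, rk a))),
      ?_, hI, hL, ?_, ?_⟩
    · rw [sz_pair]
      have h1 := sz_cert (I := I) (f := M) (fun a ha => by
        have := sz_name_le (partner_name hI hM.1 ha)
        omega)
      have h2 := sz_cert (I := I) (f := rk) (fun a _ => by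
        have h1 := hrk a
        have h2 := length_lt_sz I
        have h3 := sz_nat_le (rk a)
        have h4 := Poly.size_le_self (rk a)
        omega)
      simp only [Polynomial.eval_add, Polynomial.eval_mul, Polynomial.eval_X,
        Polynomial.eval_ofNat, Polynomial.eval_one]
      omega
    · simp only
      rw [mw_map hM.1]
      exact hM.1
    · intro a ha b hb
      simp only
      rw [mw_map hM.1, rw_map ha, rw_map (mem_names_of_pref (hI.symm _ _ hb))]
      by_cases h : Wants I M a b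
      · exact Or.inr (hrk' a b h)
      · exact Or.inl h
  · rintro I w ⟨hI, hL, hM, h⟩
    refine ⟨hI, hL, mw I w.1, cycleStable_of_rank hM (rw' w.2) fun a b hab => ?_⟩
    exact (h a (mem_names_of_pref (wants_pref hab)) b (wants_pref hab)).resolve_left
      (fun h => h hab)

/-- Blocking cycles with at most three agents. -/
theorem cycleStable3_iff {I : Inst} (hI : IsInst I) {M : ℕ → ℕ} : CycleStable3 I M ↔
    IsMatching I M ∧ (∀ a ∈ I.map Prod.fst, ∀ b ∈ pref I a, ¬ (Wants I M a b ∧ Wants I M b a)) ∧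
    ∀ a ∈ I.map Prod.fst, ∀ b ∈ pref I a, ∀ c ∈ pref I b,
      ¬ (Wants I M a b ∧ Wants I M b c ∧ Wants I M c a) := by
  have hne : ∀ a b, Wants I M a b → a ≠ b := by
    intro a b h e
    subst e
    exact hI.irrefl _ (wants_pref h)
  constructor
  · rintro ⟨hM, h⟩
    refine ⟨hM, fun a _ b _ hab => ?_, fun a _ b _ c _ habc => ?_⟩
    · exact h [a, b] (by simp) (blocking2 (hne _ _ hab.1) hab.1 hab.2)
    · obtain ⟨h1, h2, h3⟩ := habc
      exact h [a, b, c] (by simp) (blocking3 (hne _ _ h1) (hne _ _ h3).symm (hne _ _ h2) h1 h2 h3)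
  · rintro ⟨hM, h2, h3⟩
    refine ⟨hM, fun c hc hb => ?_⟩
    obtain ⟨hb1, -, hb3⟩ := hb
    match c, hc, hb1, hb3 with
    | [a, b], _, _, hb3 =>
      have w1 := hb3 0 (by simp)
      have w2 := hb3 1 (by simp)
      simp at w1 w2
      exact h2 a (mem_names_of_pref (wants_pref w1)) b (wants_pref w1) ⟨w1, w2⟩
    | [a, b, d], _, _, hb3 =>
      have w1 := hb3 0 (by simp)
      have w2 := hb3 1 (by simp)
      have w3 := hb3 2 (by simp)
      simp at w1 w2 w3
      exact h3 a (mem_names_of_pref (wants_pref w1)) b (wants_pref w1) d (wants_pref w2)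
        ⟨w1, w2, w3⟩

theorem np_CS3 (L : ℕ) : InNPP (CS3 L) := by
  refine R544.inNPP_of_pp (β := List (ℕ × ℕ))
    (R := fun I w => IsInst I ∧ (∀ a, (pref I a).length ≤ L) ∧ IsMatching I (mw I w) ∧
      (∀ a ∈ I.map Prod.fst, ∀ b ∈ pref I a, ¬ (Wants I (mw I w) a b ∧ Wants I (mw I w) b a)) ∧
      ∀ a ∈ I.map Prod.fst, ∀ b ∈ pref I a, ∀ c ∈ pref I b,
        ¬ (Wants I (mw I w) a b ∧ Wants I (mw I w) b c ∧ Wants I (mw I w) c a)) ?_
    (Polynomial.X * (5 * Polynomial.X + 3) + 1) ?_ ?_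
  · refine PP.and (pp_isInst.comp (Poly.fst Poly.id)) (PP.and ((pp_length L).comp
      (Poly.fst Poly.id)) (PP.and pp_isMatching (PP.and ?_ ?_)))
    · refine PP.ball (l := fun x : Inst × List (ℕ × ℕ) => x.1.map Prod.fst)
        (r := fun x a => ∀ b ∈ pref x.1 a, ¬ (Wants x.1 (mw x.1 x.2) a b ∧
          Wants x.1 (mw x.1 x.2) b a)) (by fun_prop) ?_
      refine PP.ball (l := fun x : (Inst × List (ℕ × ℕ)) × ℕ => pref x.1.1 x.2)
        (r := fun x b => ¬ (Wants x.1.1 (mw x.1.1 x.1.2) x.2 b ∧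
          Wants x.1.1 (mw x.1.1 x.1.2) b x.2)) (by fun_prop) ?_
      exact PP.not (PP.and (pp_wants (M := fun x : ((Inst × List (ℕ × ℕ)) × ℕ) × ℕ =>
        mw x.1.1.1 x.1.1.2) (by fun_prop) (by fun_prop) (by fun_prop) (by fun_prop))
        (pp_wants (M := fun x : ((Inst × List (ℕ × ℕ)) × ℕ) × ℕ =>
        mw x.1.1.1 x.1.1.2) (by fun_prop) (by fun_prop) (by fun_prop) (by fun_prop)))
    · refine PP.ball (l := fun x : Inst × List (ℕ × ℕ) => x.1.map Prod.fst)
        (r := fun x a => ∀ b ∈ pref x.1 a, ∀ c ∈ pref x.1 b, ¬ (Wants x.1 (mw x.1 x.2) a b ∧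
          Wants x.1 (mw x.1 x.2) b c ∧ Wants x.1 (mw x.1 x.2) c a)) (by fun_prop) ?_
      refine PP.ball (l := fun x : (Inst × List (ℕ × ℕ)) × ℕ => pref x.1.1 x.2)
        (r := fun x b => ∀ c ∈ pref x.1.1 b, ¬ (Wants x.1.1 (mw x.1.1 x.1.2) x.2 b ∧
          Wants x.1.1 (mw x.1.1 x.1.2) b c ∧ Wants x.1.1 (mw x.1.1 x.1.2) c x.2))
        (by fun_prop) ?_
      refine PP.ball (l := fun x : ((Inst × List (ℕ × ℕ)) × ℕ) × ℕ => pref x.1.1.1 x.2)
        (r := fun x c => ¬ (Wants x.1.1.1 (mw x.1.1.1 x.1.1.2) x.1.2 x.2 ∧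
          Wants x.1.1.1 (mw x.1.1.1 x.1.1.2) x.2 c ∧ Wants x.1.1.1 (mw x.1.1.1 x.1.1.2) c x.1.2))
        (by fun_prop) ?_
      exact PP.not (PP.and (pp_wants (M := fun x : (((Inst × List (ℕ × ℕ)) × ℕ) × ℕ) × ℕ =>
        mw x.1.1.1.1 x.1.1.1.2) (by fun_prop) (by fun_prop) (by fun_prop) (by fun_prop))
        (PP.and (pp_wants (M := fun x : (((Inst × List (ℕ × ℕ)) × ℕ) × ℕ) × ℕ =>
        mw x.1.1.1.1 x.1.1.1.2) (by fun_prop) (by fun_prop) (by fun_prop) (by fun_prop))
        (pp_wants (M := fun x : (((Inst × List (ℕ × ℕ)) × ℕ) × ℕ) × ℕ =>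
        mw x.1.1.1.1 x.1.1.1.2) (by fun_prop) (by fun_prop) (by fun_prop) (by fun_prop))))
  · rintro I ⟨hI, hL, M, hM⟩
    refine ⟨(I.map Prod.fst).map (fun a => (a, M a)), ?_, hI, hL, ?_⟩
    · have h1 := sz_cert (I := I) (f := M) (fun a ha => by
        have := sz_name_le (partner_name hI hM.1 ha)
        omega)
      simpa using h1
    · rw [mw_map hM.1]
      exact (cycleStable3_iff hI).1 hM
  · rintro I w ⟨hI, hL, h⟩
    exact ⟨hI, hL, mw I w, (cycleStable3_iff hI).2 h⟩

end Pool.Agent.NPC.R536CS
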