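import Pool.Agent.R536.CS.Forth

/-!
# The reduction is computed in polynomial time
-/

set_option autoImplicit false

namespace Pool.Agent.NPC.R536CS

section

variable {α : Type} [TEnc α]

theorem pPair {m n : α → ℕ} (hm : Poly m) (hn : Poly n) :
    Poly (fun a => Nat.pair (m a) (n a)) :=
  Poly.ite (Poly.decide_lt hm hn) (Poly.add (Poly.mul hn hn) hm)
    (Poly.add (Poly.add (Poly.mul hm hm) hm) hn)

theorem pNm {k i j : α → ℕ} (hk : Poly k) (hi : Poly i) (hj : Poly j) :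
    Poly (fun a => nm (k a) (i a) (j a)) := pPair hk (pPair hi hj)

theorem pNx {r : α → ℕ} (hr : Poly r) : Poly (fun a => nx (r a)) := by
  unfold nx; fun_prop

theorem pPv {r : α → ℕ} (hr : Poly r) : Poly (fun a => pv (r a)) := by
  unfold pv; fun_prop

theorem pSc {n j : α → ℕ} (hn : Poly n) (hj : Poly j) : Poly (fun a => sc (n a) (j a)) := by
  unfold sc; fun_prop

theorem pPd {n j : α → ℕ} (hn : Poly n) (hj : Poly j) : Poly (fun a => pd (n a) (j a)) := by
  unfold pd; fun_prop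

attribute [fun_prop] pPair pNm pNx pPv pSc pPd

theorem pLits {φ : α → List (Lit ℕ × Lit ℕ × Lit ℕ)} (hφ : Poly φ) :
    Poly (fun a => lits (φ a)) := by
  unfold lits; fun_prop

attribute [fun_prop] pLits R544.poly_dedup

theorem pCl {φ : α → List (Lit ℕ × Lit ℕ × Lit ℕ)} (hφ : Poly φ) : Poly (fun a => cl (φ a)) := by
  unfold cl; fun_prop

theorem pSg {φ : α → List (Lit ℕ × Lit ℕ × Lit ℕ)} {r : α → ℕ} (hφ : Poly φ) (hr : Poly r) :
    Poly (fun a => sg (φ a) (r a)) := by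
  unfold sg; fun_prop

theorem pVr {φ : α → List (Lit ℕ × Lit ℕ × Lit ℕ)} {r : α → ℕ} (hφ : Poly φ) (hr : Poly r) :
    Poly (fun a => vr (φ a) (r a)) := by
  unfold vr; fun_prop

theorem pVars {φ : α → List (Lit ℕ × Lit ℕ × Lit ℕ)} (hφ : Poly φ) :
    Poly (fun a => vars (φ a)) := by
  unfold vars; fun_prop

attribute [fun_prop] pCl pSg pVr pVars

theorem pZn {φ : α → List (Lit ℕ × Lit ℕ × Lit ℕ)} {r : α → ℕ} (hφ : Poly φ) (hr : Poly r) :
    Poly (fun a => zn (φ a) (r a)) := by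
  unfold zn; fun_prop

attribute [fun_prop] pZn

theorem pLC {φ : α → List (Lit ℕ × Lit ℕ × Lit ℕ)} {v j : α → ℕ} (hφ : Poly φ) (hv : Poly v)
    (hj : Poly j) : Poly (fun a => lC (φ a) (v a) (j a)) := by
  unfold lC; fun_prop

theorem pLA {r : α → ℕ} (hr : Poly r) : Poly (fun a => lA (r a)) := by
  unfold lA; fun_prop

theorem pLX {r : α → ℕ} (hr : Poly r) : Poly (fun a => lX (r a)) := by
  unfold lX; fun_prop

theorem pLQ {r : α → ℕ} (hr : Poly r) : Poly (fun a => lQ (r a)) := by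
  unfold lQ; fun_prop

theorem pLP {φ : α → List (Lit ℕ × Lit ℕ × Lit ℕ)} {r : α → ℕ} (hφ : Poly φ) (hr : Poly r) :
    Poly (fun a => lP (φ a) (r a)) := by
  unfold lP; fun_prop

attribute [fun_prop] pLC pLA pLX pLQ pLP

end

theorem inst_poly : Poly inst := by
  have h1 : Poly (fun φ : List (Lit ℕ × Lit ℕ × Lit ℕ) => List.range (cl φ)) :=
    (UPoly.mul (UPoly.const 6) (UPoly.length Poly.id)).range
  have h2 : Poly (fun φ : List (Lit ℕ × Lit ℕ × Lit ℕ) => List.range (3 * φ.length)) :=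
    (UPoly.mul (UPoly.const 3) (UPoly.length Poly.id)).range
  unfold inst
  refine Poly.append ?_ ?_
  · refine Poly.flatMap (F := fun (φ : List (Lit ℕ × Lit ℕ × Lit ℕ)) v =>
      (List.range (cl φ)).map (fun j => (nm 0 v j, lC φ v j))) (by fun_prop) ?_
    refine Poly.map (F := fun (p : List (Lit ℕ × Lit ℕ × Lit ℕ) × ℕ) j =>
      (nm 0 p.2 j, lC p.1 p.2 j)) (h1.comp (Poly.fst Poly.id)) (by fun_prop)
  · refine Poly.flatMap (F := fun (φ : List (Lit ℕ × Lit ℕ × Lit ℕ)) r =>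
      [(nm 1 r 0, lA r), (nm 2 r 0, lX r), (nm 3 r 0, lP φ r), (nm 4 r 0, lQ r)]) h2
      (by fun_prop)

theorem hard_CS {L : ℕ} (hL : 3 ≤ L) : NPHardP (CS L) :=
  (hardI_SAT3.trans inst_poly fun _ => red_correct hL).toNPHardP

theorem hard_CS3 {L : ℕ} (hL : 3 ≤ L) : NPHardP (CS3 L) :=
  (hardI_SAT3.trans inst_poly fun _ => red_correct3 hL).toNPHardP

end Pool.Agent.NPC.R536CS
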