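import Pool.Agent.R536.CS.Mem

/-!
# Preference lists of length at most two
-/

set_option autoImplicit false

namespace Pool.Agent.NPC.R536CS

/-- The first choice. -/
def fc (I : Inst) (a : ℕ) : ℕ := (pref I a).headD 0

/-- There is an odd cycle of agents each of which prefers the next one to the previous one and
accepts nobody else. -/
def Crit (I : Inst) : Prop :=
  ∃ x ∈ I.map Prod.fst, ∃ k ∈ List.range (I.length + 1), k % 2 = 1 ∧ (fc I)^[k] x = x ∧
    ∀ i ∈ List.range (I.length + 1), k ≤ i ∨
      pref I ((fc I)^[i + 1] x) = [(fc I)^[i + 2] x, (fc I)^[i] x]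

variable {I : Inst} {M : ℕ → ℕ}

theorem CycleStable3.not_both' (h : CycleStable3 I M) (hI : IsInst I) {a b : ℕ}
    (h1 : Wants I M a b) (h2 : Wants I M b a) : False :=
  h.not_both (fun e => hI.irrefl a (by have := wants_pref h1; rwa [← e] at this)) h1 h2

theorem not_stable_of_crit (hI : IsInst I) (hc : Crit I) : ¬ CycleStable3 I M := by
  intro h
  obtain ⟨x, hx, k, hk, hodd, hper, hlist⟩ := hc
  rw [List.mem_range] at hk
  have hM := h.1
  have hp : ∀ i < k, pref I ((fc I)^[i + 1] x) = [(fc I)^[i + 2] x, (fc I)^[i] x] := by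
    intro i hi
    rcases hlist i (List.mem_range.2 (by omega)) with h1 | h1
    · omega
    · exact h1
  have hF : ∀ i, (fc I)^[i + 1] x = fc I ((fc I)^[i] x) := fun i =>
    Function.iterate_succ_apply' _ _ _
  -- first choices
  have hfirst : ∀ i < k, ∃ l, pref I ((fc I)^[i] x) = (fc I)^[i + 1] x :: l := by
    intro i hi
    have h1 : (fc I)^[i] x ∈ pref I ((fc I)^[i + 1] x) := by rw [hp i hi]; simp
    have h2 := hI.symm _ _ h1
    rw [hF i] at h2 ⊢
    unfold fc at h2 ⊢
    cases hl : pref I ((fun a => (pref I a).headD 0)^[i] x) with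
    | nil => rw [hl] at h2; simp at h2
    | cons y l => exact ⟨l, by simp⟩
  have hmatched : ∀ i < k, M ((fc I)^[i + 1] x) = (fc I)^[i + 2] x ∨
      M ((fc I)^[i + 1] x) = (fc I)^[i] x := by
    intro i hi
    rcases hM.cases ((fc I)^[i + 1] x) with h1 | h1
    · exfalso
      obtain ⟨l, hl⟩ := hfirst i hi
      have w1 : Wants I M ((fc I)^[i + 1] x) ((fc I)^[i] x) :=
        Or.inl ⟨h1, by rw [hp i hi]; simp⟩
      have w2 : Wants I M ((fc I)^[i] x) ((fc I)^[i + 1] x) := by
        rw [wants1 hI hl]
        intro e
        rw [hM.eq_iff, h1] at e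
        have h3 := wants_pref w1
        rw [e] at h3
        exact hI.irrefl _ h3
      exact h.not_both' hI w1 w2
    · rw [hp i hi] at h1
      simpa using h1
  have hstep : ∀ i < k, (M ((fc I)^[i + 1] x) = (fc I)^[i + 2] x ↔
      ¬ M ((fc I)^[i] x) = (fc I)^[i + 1] x) := by
    intro i hi
    constructor
    · intro h1 h2
      rw [hM.eq_iff, h1] at h2
      have hnd := hI.pref_nodup ((fc I)^[i + 1] x)
      rw [hp i hi, h2] at hnd
      simp at hnd
    · intro h1
      rcases hmatched i hi with h2 | h2
      · exact h2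
      · exact absurd (hM.eq_iff.1 h2) h1
  have hall : ∀ i ≤ k, (M ((fc I)^[i] x) = (fc I)^[i + 1] x ↔
      (i % 2 = 0 ↔ M x = fc I x)) := by
    intro i
    induction i with
    | zero =>
      intro _
      simp
    | succ i ih =>
      intro hi
      rw [hstep i (by omega), ih (by omega)]
      rcases Nat.mod_two_eq_zero_or_one i with h1 | h1
      · have h2 : (i + 1) % 2 = 1 := by omega
        rw [h1, h2]; simp
      · have h2 : (i + 1) % 2 = 0 := by omega
        rw [h1, h2]; simp
  have h1 := hall k le_rfl
  rw [hF k, hper, hodd] at h1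
  simp at h1

/-! ### A stable matching is cycle stable -/

theorem cycleStable_of_stable (hI : IsInst I) (hL : ∀ a, (pref I a).length ≤ 2)
    (hM : IsMatching I M) (hst : ∀ a b, Wants I M a b → ¬ Wants I M b a) :
    CycleStable I M := by
  refine ⟨hM, fun c hc => ?_⟩
  obtain ⟨h1, h2, h3⟩ := hc
  set k := c.length with hk
  -- the agents of the cycle as a periodic function
  have hw : ∀ i, Wants I M (c.getD (i % k) 0) (c.getD ((i + 1) % k) 0) := by
    intro i
    have := h3 (i % k) (Nat.mod_lt _ (by omega))
    rwa [Nat.mod_add_mod] at this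
  have hinj : ∀ i j, c.getD (i % k) 0 = c.getD (j % k) 0 → i % k = j % k := by
    intro i j he
    have hi : i % k < c.length := Nat.mod_lt _ (by omega)
    have hj : j % k < c.length := Nat.mod_lt _ (by omega)
    rw [List.getD_eq_getElem _ _ hi, List.getD_eq_getElem _ _ hj] at he
    exact (List.Nodup.getElem_inj_iff h2).1 he
  by_cases hk2 : k = 2
  · have w1 := hw 0
    have w2 := hw 1
    rw [hk2] at w1 w2
    exact hst _ _ w1 w2
  · have hk3 : 3 ≤ k := by omega
    -- every agent of the cycle is unassigned
    have hun : ∀ i, M (c.getD ((i + 1) % k) 0) = c.getD ((i + 1) % k) 0 := by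
      intro i
      by_contra hne
      have hacc := hM.acceptable _ hne
      have hn1 : c.getD ((i + 2) % k) 0 ∈ pref I (c.getD ((i + 1) % k) 0) := wants_pref (hw (i + 1))
      have hn2 : c.getD (i % k) 0 ∈ pref I (c.getD ((i + 1) % k) 0) :=
        hI.symm _ _ (wants_pref (hw i))
      have hne12 : c.getD ((i + 2) % k) 0 ≠ c.getD (i % k) 0 := by
        intro e
        have := hinj _ _ e
        have h4 : (i + 2) % k = (i % k + 2) % k := by rw [Nat.mod_add_mod]
        rw [h4] at this
        have h5 : i % k < k := Nat.mod_lt _ (by omega)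
        by_cases h6 : i % k + 2 < k
        · rw [Nat.mod_eq_of_lt h6] at this; omega
        · rw [Nat.mod_eq_sub_mod (by omega), Nat.mod_eq_of_lt (by omega)] at this; omega
      -- the partner is one of the two neighbours
      have hcase : M (c.getD ((i + 1) % k) 0) = c.getD ((i + 2) % k) 0 ∨
          M (c.getD ((i + 1) % k) 0) = c.getD (i % k) 0 := by
        by_contra hno
        push Not at hno
        have hsub : ({M (c.getD ((i + 1) % k) 0), c.getD ((i + 2) % k) 0, c.getD (i % k) 0} :
            Finset ℕ) ⊆ (pref I (c.getD ((i + 1) % k) 0)).toFinset := by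
          intro z hz
          simp only [Finset.mem_insert, Finset.mem_singleton] at hz
          rw [List.mem_toFinset]
          rcases hz with rfl | rfl | rfl
          · exact hacc
          · exact hn1
          · exact hn2
        have hcard := Finset.card_le_card hsub
        rw [Finset.card_insert_of_notMem (by
            rw [Finset.mem_insert, Finset.mem_singleton, not_or]; exact hno),
          Finset.card_insert_of_notMem (by rw [Finset.mem_singleton]; exact hne12),
          Finset.card_singleton] at hcard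
        have := List.toFinset_card_le (pref I (c.getD ((i + 1) % k) 0))
        have := hL (c.getD ((i + 1) % k) 0)
        omega
      rcases hcase with h4 | h4
      · have w := (wants_iff hI).1 (hw (i + 1))
        unfold Prefers at w
        rw [h4] at w
        exact lt_irrefl _ w.2
      · have w := (wants_iff hI).1 (hw i)
        unfold Prefers at w
        rw [hM.eq_iff.1 h4] at w
        exact lt_irrefl _ w.2
    have w1 := hw 1
    have w2 : Wants I M (c.getD ((1 + 1) % k) 0) (c.getD (1 % k) 0) := by
      refine Or.inl ⟨hun 1, hI.symm _ _ (wants_pref w1)⟩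
    exact hst _ _ w1 w2

/-! ### A colouring -/

theorem exists_color {α : Type} (e : Equiv.Perm α) (h : ∀ (a : α) (k : ℕ), k % 2 = 1 →
    (e ^ k) a ≠ a) : ∃ c : α → Bool, ∀ a, c (e a) = !c a := by
  classical
  have hz : ∀ (a : α) (z : ℤ), z % 2 = 1 → (e ^ z) a ≠ a := by
    intro a z hz he
    rcases Int.natAbs_eq z with h1 | h1
    · rw [h1, zpow_natCast] at he
      exact h a _ (by omega) he
    · rw [h1, zpow_neg, zpow_natCast, Equiv.Perm.inv_eq_iff_eq] at he
      exact h a _ (by omega) he.symm
  let st : Setoid α := ⟨e.SameCycle, ⟨Equiv.Perm.SameCycle.refl e,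
    fun h => Equiv.Perm.SameCycle.symm h, fun h h' => Equiv.Perm.SameCycle.trans h h'⟩⟩
  have hrep : ∀ a, ∃ m : ℤ, (e ^ m) (Quotient.mk st a).out = a := by
    intro a
    have : e.SameCycle (Quotient.mk st a).out a := Quotient.mk_out (s := st) a
    exact this
  choose m hm using hrep
  refine ⟨fun a => decide (m a % 2 = 0), fun a => ?_⟩
  have hq : (Quotient.mk st (e a)) = Quotient.mk st a := by
    apply Quotient.sound
    change e.SameCycle (e a) a
    exact (Equiv.Perm.sameCycle_apply_left).2 (Equiv.Perm.SameCycle.refl e a)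
  have h1 := hm (e a)
  rw [hq] at h1
  have h2 : (e ^ (m (e a) - m a - 1)) (e a) = e a := by
    have h3 : (Quotient.mk st a).out = (e ^ (- m a)) a := by
      rw [zpow_neg, Equiv.Perm.eq_inv_iff_eq]
      exact hm a
    rw [h3, ← Equiv.Perm.mul_apply, ← zpow_add] at h1
    have h4 : ∀ z : ℤ, (e ^ z) (e a) = (e ^ (z + 1)) a := fun z => by
      rw [zpow_add_one, Equiv.Perm.mul_apply]
    rw [h4]
    have h5 : m (e a) - m a - 1 + 1 = m (e a) + - m a := by ring
    rw [h5]
    exact h1
  have h3 : (m (e a) - m a - 1) % 2 ≠ 1 := fun h4 => hz _ _ h4 h2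
  by_cases h4 : m a % 2 = 0
  · have h5 : ¬ m (e a) % 2 = 0 := by omega
    simp [h4, h5]
  · have h5 : m (e a) % 2 = 0 := by omega
    simp [h4, h5]

end Pool.Agent.NPC.R536CS
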